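import Mathlib

/-!
# p-intersection numbers of complete bipartite graphs: definitions and elementary bounds
-/

set_option autoImplicit false

namespace Pool.Agent.R88.PI

open Finset

/-- The `p`-intersection number of the graph `G`: the least `t` for which one can assign to every
vertex `v` a subset `S v` of a `t`-element set such that distinct vertices `u`, `v` are adjacent if
and only if `|S u ∩ S v| ≥ p`. -/
noncomputable def theta (p : ℕ) {V : Type} (G : SimpleGraph V) : ℕ :=
  sInf {t : ℕ | ∃ S : V → Finset (Fin t), ∀ u v : V, u ≠ v → (G.Adj u v ↔ p ≤ (S u ∩ S v).card)}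

/-- `(α, β, γ)` is dual feasible: `α x y ≤ 1 + β x (x - 1) + γ y (y - 1)` for all natural numbers
`x`, `y`. -/
def Dual (α β γ : ℝ) : Prop :=
  0 ≤ α ∧ 0 ≤ β ∧ 0 ≤ γ ∧
    ∀ x y : ℕ, α * (x * y) ≤ 1 + β * (x * (x - 1)) + γ * (y * (y - 1))

section lower

variable {a b t : ℕ}

theorem sum_inter {A B : Type} [Fintype A] [Fintype B] (S : A → Finset (Fin t))
    (T : B → Finset (Fin t)) :
    ∑ u, ∑ v, ((S u ∩ T v).card : ℝ) =
      ∑ i : Fin t, ((univ.filter (fun u => i ∈ S u)).card : ℝ) *
        ((univ.filter (fun v => i ∈ T v)).card : ℝ) := by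
  have h1 : ∀ u v, ((S u ∩ T v).card : ℝ) =
      ∑ i : Fin t, (if i ∈ S u then (1 : ℝ) else 0) * (if i ∈ T v then (1 : ℝ) else 0) := by
    intro u v
    rw [card_eq_sum_ones, Nat.cast_sum]
    rw [← Finset.sum_filter_add_sum_filter_not univ (fun i => i ∈ S u ∩ T v)]
    have h2 : ∑ i ∈ univ.filter (fun i => ¬ i ∈ S u ∩ T v),
        (if i ∈ S u then (1 : ℝ) else 0) * (if i ∈ T v then (1 : ℝ) else 0) = 0 := by
      apply Finset.sum_eq_zero
      intro i hi
      simp only [Finset.mem_filter, Finset.mem_inter, not_and] at hi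
      by_cases h : i ∈ S u
      · simp [h, hi.2 h]
      · simp [h]
    rw [h2, add_zero]
    have h3 : univ.filter (fun i => i ∈ S u ∩ T v) = S u ∩ T v := by
      ext i; simp
    rw [h3]
    apply Finset.sum_congr rfl
    intro i hi
    rw [Finset.mem_inter] at hi
    simp [hi.1, hi.2]
  calc ∑ u, ∑ v, ((S u ∩ T v).card : ℝ)
      = ∑ u, ∑ v, ∑ i : Fin t, (if i ∈ S u then (1 : ℝ) else 0) *
          (if i ∈ T v then (1 : ℝ) else 0) := by
        apply Finset.sum_congr rfl; intro u _
        apply Finset.sum_congr rfl; intro v _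
        exact h1 u v
    _ = ∑ i : Fin t, ∑ u, ∑ v, (if i ∈ S u then (1 : ℝ) else 0) *
          (if i ∈ T v then (1 : ℝ) else 0) := by
        rw [Finset.sum_comm]
        rw [Finset.sum_comm]
        rw [show (∑ u, ∑ v, ∑ i : Fin t, (if i ∈ S u then (1 : ℝ) else 0) *
          (if i ∈ T v then (1 : ℝ) else 0)) = ∑ u, ∑ i : Fin t, ∑ v,
            (if i ∈ S u then (1 : ℝ) else 0) * (if i ∈ T v then (1 : ℝ) else 0) from
          Finset.sum_congr rfl (fun u _ => Finset.sum_comm)]
        exact Finset.sum_comm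
    _ = _ := by
        apply Finset.sum_congr rfl; intro i _
        rw [← Finset.sum_mul_sum]
        rw [Finset.sum_boole, Finset.sum_boole]

/-- Weak duality for a single representation. -/
theorem le_of_rep {p : ℕ} (hp : 1 ≤ p) {α β γ : ℝ} (h : Dual α β γ)
    (S : Fin a ⊕ Fin b → Finset (Fin t))
    (hS : ∀ u v, u ≠ v → ((completeBipartiteGraph (Fin a) (Fin b)).Adj u v ↔
      p ≤ (S u ∩ S v).card)) :
    α * (p * a * b) - (p - 1) * (β * a ^ 2 + γ * b ^ 2) ≤ t := by
  obtain ⟨hα, hβ, hγ, hd⟩ := h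
  have hp' : (1 : ℝ) ≤ p := by exact_mod_cast hp
  set x : Fin t → ℕ := fun i => (univ.filter (fun u : Fin a => i ∈ S (Sum.inl u))).card with hx
  set y : Fin t → ℕ := fun i => (univ.filter (fun v : Fin b => i ∈ S (Sum.inr v))).card with hy
  -- the edges
  have h1 : (p : ℝ) * a * b ≤ ∑ i, (x i : ℝ) * y i := by
    have := sum_inter (fun u : Fin a => S (Sum.inl u)) (fun v : Fin b => S (Sum.inr v))
    rw [hx, hy]
    dsimp only
    rw [← this]
    calc (p : ℝ) * a * b = ∑ _u : Fin a, ∑ _v : Fin b, (p : ℝ) := by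
          simp only [Finset.sum_const, Finset.card_univ, Fintype.card_fin, nsmul_eq_mul]; ring
      _ ≤ _ := by
          apply Finset.sum_le_sum; intro u _
          apply Finset.sum_le_sum; intro v _
          have := (hS (Sum.inl u) (Sum.inr v) (by simp)).1 (by simp)
          exact_mod_cast this
  -- the first side
  have h2 : ∑ i, (x i : ℝ) * (x i - 1) ≤ (p - 1) * (a : ℝ) ^ 2 := by
    have h3 := sum_inter (fun u : Fin a => S (Sum.inl u)) (fun v : Fin a => S (Sum.inl v))
    have h4 : ∑ i, (x i : ℝ) = ∑ u : Fin a, ((S (Sum.inl u)).card : ℝ) := by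
      have h5 := sum_inter (fun u : Fin a => S (Sum.inl u)) (fun _ : Fin 1 => (univ : Finset (Fin t)))
      simp only [Finset.inter_univ, Finset.sum_const, Finset.card_univ, Fintype.card_fin,
        one_smul, Finset.mem_univ, Finset.filter_true, Nat.cast_one, mul_one] at h5
      rw [h5]
    have h6 : ∑ u : Fin a, ∑ v : Fin a, ((S (Sum.inl u) ∩ S (Sum.inl v)).card : ℝ) ≤
        ∑ u : Fin a, ((S (Sum.inl u)).card : ℝ) + (p - 1) * (a : ℝ) ^ 2 := by
      have h7 : ∀ u : Fin a, ∑ v : Fin a, ((S (Sum.inl u) ∩ S (Sum.inl v)).card : ℝ) ≤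
          ((S (Sum.inl u)).card : ℝ) + (p - 1) * a := by
        intro u
        rw [← Finset.add_sum_erase univ _ (mem_univ u), Finset.inter_self]
        have h8 : ∑ v ∈ univ.erase u, ((S (Sum.inl u) ∩ S (Sum.inl v)).card : ℝ) ≤
            ∑ _v ∈ univ.erase u, ((p : ℝ) - 1) := by
          apply Finset.sum_le_sum
          intro v hv
          have hne : u ≠ v := (Finset.ne_of_mem_erase hv).symm
          have h9 := (hS (Sum.inl u) (Sum.inl v) (by simpa using hne))
          have h10 : ¬ (completeBipartiteGraph (Fin a) (Fin b)).Adj (Sum.inl u) (Sum.inl v) := by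
            simp
          rw [h9] at h10
          have h11 : (S (Sum.inl u) ∩ S (Sum.inl v)).card + 1 ≤ p := by omega
          have h12 : (((S (Sum.inl u) ∩ S (Sum.inl v)).card : ℝ) + 1) ≤ p := by exact_mod_cast h11
          linarith
        have h13 : ∑ _v ∈ univ.erase u, ((p : ℝ) - 1) ≤ (p - 1) * a := by
          rw [Finset.sum_const, nsmul_eq_mul]
          have h14 : ((univ.erase u).card : ℝ) ≤ a := by
            have := Finset.card_le_card (Finset.erase_subset u (univ : Finset (Fin a)))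
            simp only [Finset.card_univ, Fintype.card_fin] at this
            exact_mod_cast this
          nlinarith
        linarith
      calc ∑ u : Fin a, ∑ v : Fin a, ((S (Sum.inl u) ∩ S (Sum.inl v)).card : ℝ)
          ≤ ∑ u : Fin a, (((S (Sum.inl u)).card : ℝ) + (p - 1) * a) :=
            Finset.sum_le_sum (fun u _ => h7 u)
        _ = _ := by
            rw [Finset.sum_add_distrib, Finset.sum_const, Finset.card_univ, Fintype.card_fin,
              nsmul_eq_mul]
            ring
    have h15 : ∑ i, (x i : ℝ) * (x i - 1) = ∑ i, (x i : ℝ) * x i - ∑ i, (x i : ℝ) := by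
      rw [← Finset.sum_sub_distrib]
      apply Finset.sum_congr rfl; intro i _; ring
    rw [h15, h4]
    have h16 : ∑ i, (x i : ℝ) * x i = ∑ u : Fin a, ∑ v : Fin a,
        ((S (Sum.inl u) ∩ S (Sum.inl v)).card : ℝ) := by rw [h3]
    rw [h16]
    linarith
  have h2' : ∑ i, (y i : ℝ) * (y i - 1) ≤ (p - 1) * (b : ℝ) ^ 2 := by
    have h3 := sum_inter (fun u : Fin b => S (Sum.inr u)) (fun v : Fin b => S (Sum.inr v))
    have h4 : ∑ i, (y i : ℝ) = ∑ u : Fin b, ((S (Sum.inr u)).card : ℝ) := by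
      have h5 := sum_inter (fun u : Fin b => S (Sum.inr u)) (fun _ : Fin 1 => (univ : Finset (Fin t)))
      simp only [Finset.inter_univ, Finset.sum_const, Finset.card_univ, Fintype.card_fin,
        one_smul, Finset.mem_univ, Finset.filter_true, Nat.cast_one, mul_one] at h5
      rw [h5]
    have h6 : ∑ u : Fin b, ∑ v : Fin b, ((S (Sum.inr u) ∩ S (Sum.inr v)).card : ℝ) ≤
        ∑ u : Fin b, ((S (Sum.inr u)).card : ℝ) + (p - 1) * (b : ℝ) ^ 2 := by
      have h7 : ∀ u : Fin b, ∑ v : Fin b, ((S (Sum.inr u) ∩ S (Sum.inr v)).card : ℝ) ≤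
          ((S (Sum.inr u)).card : ℝ) + (p - 1) * b := by
        intro u
        rw [← Finset.add_sum_erase univ _ (mem_univ u), Finset.inter_self]
        have h8 : ∑ v ∈ univ.erase u, ((S (Sum.inr u) ∩ S (Sum.inr v)).card : ℝ) ≤
            ∑ _v ∈ univ.erase u, ((p : ℝ) - 1) := by
          apply Finset.sum_le_sum
          intro v hv
          have hne : u ≠ v := (Finset.ne_of_mem_erase hv).symm
          have h9 := (hS (Sum.inr u) (Sum.inr v) (by simpa using hne))
          have h10 : ¬ (completeBipartiteGraph (Fin a) (Fin b)).Adj (Sum.inr u) (Sum.inr v) := by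
            simp
          rw [h9] at h10
          have h11 : (S (Sum.inr u) ∩ S (Sum.inr v)).card + 1 ≤ p := by omega
          have h12 : (((S (Sum.inr u) ∩ S (Sum.inr v)).card : ℝ) + 1) ≤ p := by exact_mod_cast h11
          linarith
        have h13 : ∑ _v ∈ univ.erase u, ((p : ℝ) - 1) ≤ (p - 1) * b := by
          rw [Finset.sum_const, nsmul_eq_mul]
          have h14 : ((univ.erase u).card : ℝ) ≤ b := by
            have := Finset.card_le_card (Finset.erase_subset u (univ : Finset (Fin b)))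
            simp only [Finset.card_univ, Fintype.card_fin] at this
            exact_mod_cast this
          nlinarith
        linarith
      calc ∑ u : Fin b, ∑ v : Fin b, ((S (Sum.inr u) ∩ S (Sum.inr v)).card : ℝ)
          ≤ ∑ u : Fin b, (((S (Sum.inr u)).card : ℝ) + (p - 1) * b) :=
            Finset.sum_le_sum (fun u _ => h7 u)
        _ = _ := by
            rw [Finset.sum_add_distrib, Finset.sum_const, Finset.card_univ, Fintype.card_fin,
              nsmul_eq_mul]
            ring
    have h15 : ∑ i, (y i : ℝ) * (y i - 1) = ∑ i, (y i : ℝ) * y i - ∑ i, (y i : ℝ) := by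
      rw [← Finset.sum_sub_distrib]
      apply Finset.sum_congr rfl; intro i _; ring
    rw [h15, h4]
    have h16 : ∑ i, (y i : ℝ) * y i = ∑ u : Fin b, ∑ v : Fin b,
        ((S (Sum.inr u) ∩ S (Sum.inr v)).card : ℝ) := by rw [h3]
    rw [h16]
    linarith
  -- duality
  have h17 : α * ∑ i, (x i : ℝ) * y i ≤ t + β * ∑ i, (x i : ℝ) * (x i - 1) +
      γ * ∑ i, (y i : ℝ) * (y i - 1) := by
    rw [Finset.mul_sum, Finset.mul_sum, Finset.mul_sum]
    calc ∑ i, α * ((x i : ℝ) * y i)
        ≤ ∑ i : Fin t, (1 + β * ((x i : ℝ) * (x i - 1)) + γ * ((y i : ℝ) * (y i - 1))) :=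
          Finset.sum_le_sum (fun i _ => hd (x i) (y i))
      _ = _ := by
          rw [Finset.sum_add_distrib, Finset.sum_add_distrib, Finset.sum_const, Finset.card_univ,
            Fintype.card_fin, nsmul_eq_mul, mul_one]
  have h18 := mul_le_mul_of_nonneg_left h1 hα
  have h19 := mul_le_mul_of_nonneg_left h2 hβ
  have h20 := mul_le_mul_of_nonneg_left h2' hγ
  have h21 : (p - 1) * (β * (a : ℝ) ^ 2 + γ * b ^ 2) =
      β * ((p - 1) * (a : ℝ) ^ 2) + γ * ((p - 1) * (b : ℝ) ^ 2) := by ring
  rw [h21]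
  linarith

end lower

section family

/-- A family of sets gives a representation. -/
theorem rep_of_family {p a b : ℕ} {κ : Type} [Fintype κ] (X : κ → Finset (Fin a))
    (Y : κ → Finset (Fin b))
    (hX : ∀ u u', u ≠ u' → Nat.card {k // u ∈ X k ∧ u' ∈ X k} < p)
    (hY : ∀ v v', v ≠ v' → Nat.card {k // v ∈ Y k ∧ v' ∈ Y k} < p)
    (hXY : ∀ u v, p ≤ Nat.card {k // u ∈ X k ∧ v ∈ Y k}) :
    ∃ S : Fin a ⊕ Fin b → Finset (Fin (Fintype.card κ)), ∀ u v, u ≠ v →
      ((completeBipartiteGraph (Fin a) (Fin b)).Adj u v ↔ p ≤ (S u ∩ S v).card) := by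
  classical
  let Q : Fin a ⊕ Fin b → κ → Prop := fun w k => Sum.elim (fun u => u ∈ X k) (fun v => v ∈ Y k) w
  let e := Fintype.equivFin κ
  refine ⟨fun w => (univ.filter (fun k => Q w k)).map e.toEmbedding, ?_⟩
  intro u v huv
  have h1 : (((univ.filter (fun k => Q u k)).map e.toEmbedding) ∩
      ((univ.filter (fun k => Q v k)).map e.toEmbedding)).card =
      Nat.card {k // Q u k ∧ Q v k} := by
    rw [← Finset.map_inter, Finset.card_map, ← Finset.filter_and, Nat.card_eq_fintype_card,
      Fintype.card_subtype]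
  rw [h1]
  rcases u with u | u <;> rcases v with v | v
  · have h2 : ¬ (completeBipartiteGraph (Fin a) (Fin b)).Adj (Sum.inl u) (Sum.inl v) := by simp
    have h3 : Nat.card {k // Q (Sum.inl u) k ∧ Q (Sum.inl v) k} < p :=
      hX u v (by simpa using huv)
    exact ⟨fun h => absurd h h2, fun h => absurd h (by omega)⟩
  · have h3 : p ≤ Nat.card {k // Q (Sum.inl u) k ∧ Q (Sum.inr v) k} := hXY u v
    exact ⟨fun _ => h3, fun _ => by simp⟩
  · have h3 : p ≤ Nat.card {k // Q (Sum.inr u) k ∧ Q (Sum.inl v) k} := by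
      refine (hXY v u).trans (le_of_eq ?_)
      apply Nat.card_congr
      exact Equiv.subtypeEquivRight (fun k => and_comm)
    exact ⟨fun _ => h3, fun _ => by simp⟩
  · have h2 : ¬ (completeBipartiteGraph (Fin a) (Fin b)).Adj (Sum.inr u) (Sum.inr v) := by simp
    have h3 : Nat.card {k // Q (Sum.inr u) k ∧ Q (Sum.inr v) k} < p :=
      hY u v (by simpa using huv)
    exact ⟨fun h => absurd h h2, fun h => absurd h (by omega)⟩

theorem theta_le_of_family {p a b : ℕ} {κ : Type} [Fintype κ] (X : κ → Finset (Fin a))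
    (Y : κ → Finset (Fin b))
    (hX : ∀ u u', u ≠ u' → Nat.card {k // u ∈ X k ∧ u' ∈ X k} < p)
    (hY : ∀ v v', v ≠ v' → Nat.card {k // v ∈ Y k ∧ v' ∈ Y k} < p)
    (hXY : ∀ u v, p ≤ Nat.card {k // u ∈ X k ∧ v ∈ Y k}) :
    theta p (completeBipartiteGraph (Fin a) (Fin b)) ≤ Fintype.card κ :=
  Nat.sInf_le (rep_of_family X Y hX hY hXY)

/-- Completing a packing by single edges. -/
theorem family_of_packing {p a b : ℕ} (hp : 1 ≤ p) {κ : Type} [Fintype κ]
    (X : κ → Finset (Fin a)) (Y : κ → Finset (Fin b))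
    (hX : ∀ u u', u ≠ u' → Nat.card {k // u ∈ X k ∧ u' ∈ X k} < p)
    (hY : ∀ v v', v ≠ v' → Nat.card {k // v ∈ Y k ∧ v' ∈ Y k} < p)
    (hXY : ∀ u v, Nat.card {k // u ∈ X k ∧ v ∈ Y k} ≤ p) :
    ∃ (κ' : Type) (_ : Fintype κ') (X' : κ' → Finset (Fin a)) (Y' : κ' → Finset (Fin b)),
      (∀ u u', u ≠ u' → Nat.card {k // u ∈ X' k ∧ u' ∈ X' k} < p) ∧
      (∀ v v', v ≠ v' → Nat.card {k // v ∈ Y' k ∧ v' ∈ Y' k} < p) ∧
      (∀ u v, p ≤ Nat.card {k // u ∈ X' k ∧ v ∈ Y' k}) ∧
      Fintype.card κ' + ∑ k, (X k).card * (Y k).card = Fintype.card κ + p * a * b := by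
  classical
  let m : Fin a × Fin b → ℕ := fun w => Nat.card {k // w.1 ∈ X k ∧ w.2 ∈ Y k}
  let D : Type := Σ w : Fin a × Fin b, Fin (p - m w)
  refine ⟨κ ⊕ D, inferInstance, Sum.elim X (fun d => {d.1.1}), Sum.elim Y (fun d => {d.1.2}),
    ?_, ?_, ?_, ?_⟩
  · intro u u' huu
    refine lt_of_le_of_lt (le_of_eq ?_) (hX u u' huu)
    rw [Nat.card_eq_fintype_card, Nat.card_eq_fintype_card]
    apply Fintype.card_congr
    refine ⟨fun z => ?_, fun z => ⟨Sum.inl z.1, z.2⟩, ?_, ?_⟩
    · rcases z with ⟨z | z, hz⟩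
      · exact ⟨z, hz⟩
      · exfalso
        simp only [Sum.elim_inr, Finset.mem_singleton] at hz
        exact huu (hz.1.trans hz.2.symm)
    · rintro ⟨z | z, hz⟩
      · rfl
      · exfalso
        simp only [Sum.elim_inr, Finset.mem_singleton] at hz
        exact huu (hz.1.trans hz.2.symm)
    · rintro ⟨z, hz⟩
      rfl
  · intro u u' huu
    refine lt_of_le_of_lt (le_of_eq ?_) (hY u u' huu)
    rw [Nat.card_eq_fintype_card, Nat.card_eq_fintype_card]
    apply Fintype.card_congr
    refine ⟨fun z => ?_, fun z => ⟨Sum.inl z.1, z.2⟩, ?_, ?_⟩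
    · rcases z with ⟨z | z, hz⟩
      · exact ⟨z, hz⟩
      · exfalso
        simp only [Sum.elim_inr, Finset.mem_singleton] at hz
        exact huu (hz.1.trans hz.2.symm)
    · rintro ⟨z | z, hz⟩
      · rfl
      · exfalso
        simp only [Sum.elim_inr, Finset.mem_singleton] at hz
        exact huu (hz.1.trans hz.2.symm)
    · rintro ⟨z, hz⟩
      rfl
  · intro u v
    have h1 : Fintype.card ({k // u ∈ X k ∧ v ∈ Y k} ⊕ Fin (p - m (u, v))) ≤
        Fintype.card {k : κ ⊕ D // u ∈ Sum.elim X (fun d => ({d.1.1} : Finset (Fin a))) k ∧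
          v ∈ Sum.elim Y (fun d => ({d.1.2} : Finset (Fin b))) k} := by
      apply Fintype.card_le_of_injective (Sum.elim
        (fun z => ⟨Sum.inl z.1, z.2⟩)
        (fun z => ⟨Sum.inr ⟨(u, v), z⟩, by simp⟩))
      rintro (z | z) (z' | z') h
      · have h' := Sum.inl.inj (congrArg Subtype.val h)
        exact congrArg Sum.inl (Subtype.ext h')
      · exact absurd (congrArg Subtype.val h) (by simp)
      · exact absurd (congrArg Subtype.val h) (by simp)
      · have h' := Sum.inr.inj (congrArg Subtype.val h)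
        have h'' := eq_of_heq (Sigma.mk.inj h').2
        rw [h'']
    rw [Fintype.card_sum, Fintype.card_fin] at h1
    rw [Nat.card_eq_fintype_card]
    have h2 : m (u, v) = Fintype.card {k // u ∈ X k ∧ v ∈ Y k} := Nat.card_eq_fintype_card
    have h3 : m (u, v) ≤ p := hXY u v
    omega
  · rw [Fintype.card_sum]
    have h1 : Fintype.card D = ∑ w : Fin a × Fin b, (p - m w) := by
      simp only [D, Fintype.card_sigma, Fintype.card_fin]
    have h2 : ∑ w : Fin a × Fin b, m w = ∑ k, (X k).card * (Y k).card := by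
      have h3 : ∀ w : Fin a × Fin b, m w =
          ∑ k, (if w.1 ∈ X k ∧ w.2 ∈ Y k then 1 else 0) := by
        intro w
        simp only [m]
        rw [Nat.card_eq_fintype_card, Fintype.card_subtype, Finset.card_filter]
      rw [Finset.sum_congr rfl (fun w _ => h3 w), Finset.sum_comm]
      apply Finset.sum_congr rfl
      intro k _
      rw [← Finset.card_filter, ← Finset.card_product]
      congr 1
      ext w
      simp [Finset.mem_product]
    have h4 : ∑ w : Fin a × Fin b, (p - m w) + ∑ w : Fin a × Fin b, m w = p * a * b := by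
      rw [← Finset.sum_add_distrib]
      rw [Finset.sum_congr rfl (fun w _ => Nat.sub_add_cancel (hXY w.1 w.2))]
      simp only [Finset.sum_const, Finset.card_univ, Fintype.card_prod, Fintype.card_fin,
        smul_eq_mul]
      ring
    rw [h1, ← h2]
    omega

end family

/-- Representations exist, and `θ_p(K_{a,b}) ≤ p a b`. -/
theorem exists_rep {p a b : ℕ} (hp : 1 ≤ p) :
    ∃ S : Fin a ⊕ Fin b → Finset (Fin (p * a * b)), ∀ u v, u ≠ v →
      ((completeBipartiteGraph (Fin a) (Fin b)).Adj u v ↔ p ≤ (S u ∩ S v).card) := by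
  obtain ⟨κ', hκ, X', Y', h1, h2, h3, h4⟩ := family_of_packing (a := a) (b := b) hp
    (κ := Empty) (fun k => k.elim) (fun k => k.elim) (by intro u u' _; simp; omega)
    (by intro u u' _; simp; omega) (by intro u u'; simp)
  have h5 : Fintype.card κ' = p * a * b := by simpa using h4
  rw [← h5]
  exact rep_of_family X' Y' h1 h2 h3

theorem theta_le {p a b : ℕ} (hp : 1 ≤ p) :
    theta p (completeBipartiteGraph (Fin a) (Fin b)) ≤ p * a * b :=
  Nat.sInf_le (exists_rep hp)

/-- Weak duality. -/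
theorem le_theta {p : ℕ} (hp : 1 ≤ p) {α β γ : ℝ} (h : Dual α β γ) (a b : ℕ) :
    α * (p * a * b) - (p - 1) * (β * a ^ 2 + γ * b ^ 2) ≤
      theta p (completeBipartiteGraph (Fin a) (Fin b)) := by
  obtain ⟨S, hS⟩ := Nat.sInf_mem (s := {t : ℕ | ∃ S : Fin a ⊕ Fin b → Finset (Fin t),
    ∀ u v, u ≠ v → ((completeBipartiteGraph (Fin a) (Fin b)).Adj u v ↔ p ≤ (S u ∩ S v).card)})
    ⟨_, exists_rep hp⟩
  exact le_of_rep hp h S hS

end Pool.Agent.R88.PI
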