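import Pool.Agent.R88.PI.Nib

/-!
# Degrees and codegrees of the auxiliary hypergraph, and the packing
-/

set_option autoImplicit false

namespace Pool.Agent.R88.PI

open Finset
open scoped Classical

variable {K : Type} [Fintype K] {x y : K → ℕ} {a b p : ℕ}

theorem Fm_eq_iff {e e' : Pl x y a b p} {q q' : Pos x y} (h : Fm e q = Fm e' q') :
    (e (Sum.inl q) : ℕ) = (e' (Sum.inl q') : ℕ) := by
  rw [← cd_Fm, ← cd_Fm, h]

theorem slot_mixed {z : Sym2 (Pos x y)} (hz : z ∈ Zs x y) (hs : sd z = s(true, false))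
    (σ : Sym2 (Fin a ⊕ Fin b) × ℕ) :
    (univ.filter (fun e : Pl x y a b p => slot e z = σ)).card * (a * b * p) ≤
      ∏ ω, sz x y a b p ω := by
  by_cases hne : (univ.filter (fun e : Pl x y a b p => slot e z = σ)).Nonempty
  swap
  · rw [Finset.not_nonempty_iff_eq_empty] at hne
    rw [hne]; simp
  obtain ⟨e₀, he₀⟩ := hne
  rw [Finset.mem_filter] at he₀
  have he₀' := he₀.2
  subst he₀'
  have key : ∀ (i : Σ k : K, Fin (x k)) (j : Σ k : K, Fin (y k)), z = s(Sum.inl i, Sum.inr j) →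
      (univ.filter (fun e : Pl x y a b p => slot e z = slot e₀ z)).card * (a * b * p) ≤
      ∏ ω, sz x y a b p ω := by
    intro i j hzij
    have h3 := cnt3 (sz x y a b p) (ω₁ := Sum.inl (Sum.inl i)) (ω₂ := Sum.inl (Sum.inr j))
      (ω₃ := Sum.inr z) (by simp) (by simp) (by simp) (e₀ (Sum.inl (Sum.inl i)) : ℕ)
      (e₀ (Sum.inl (Sum.inr j)) : ℕ) (e₀ (Sum.inr z) : ℕ)
    have h4 : sz x y a b p (Sum.inl (Sum.inl i)) * sz x y a b p (Sum.inl (Sum.inr j)) *
        sz x y a b p (Sum.inr z) = a * b * p := by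
      simp only [sz, Sum.elim_inl, Sum.elim_inr, nv, cap, hs, if_true]
    rw [h4] at h3
    refine le_trans (Nat.mul_le_mul_right _ (Finset.card_le_card ?_)) h3
    intro e he
    rw [Finset.mem_filter] at he ⊢
    refine ⟨mem_univ _, ?_⟩
    have h5 := he.2
    unfold slot at h5
    rw [Prod.mk.injEq] at h5
    obtain ⟨h6, h7⟩ := h5
    rw [hzij, Sym2.map_mk, Sym2.map_mk, Sym2.eq_iff] at h6
    rcases h6 with ⟨h6, h8⟩ | ⟨h6, h8⟩
    · exact ⟨Fm_eq_iff h6, Fm_eq_iff h8, h7⟩
    · exfalso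
      have := congrArg Sum.isLeft h6
      rw [isLeft_Fm, isLeft_Fm] at this
      simp at this
  induction z with
  | _ q q' =>
    rcases q with q | q <;> rcases q' with q' | q'
    · simp [sd] at hs
    · exact key q q' rfl
    · exact key q' q Sym2.eq_swap
    · simp [sd] at hs

theorem slot_pair {z : Sym2 (Pos x y)} (hz : z ∈ Zs x y) {c : ℕ}
    (hs : ∀ q q', z = s(q, q') → nv x y a b q * nv x y a b q' = c)
    (hcap : sd z ≠ s(true, false)) (σ : Sym2 (Fin a ⊕ Fin b) × ℕ) :
    (univ.filter (fun e : Pl x y a b p => slot e z = σ)).card * (c * (p - 1)) ≤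
      2 * ∏ ω, sz x y a b p ω := by
  by_cases hne : (univ.filter (fun e : Pl x y a b p => slot e z = σ)).Nonempty
  swap
  · rw [Finset.not_nonempty_iff_eq_empty] at hne
    rw [hne]; simp
  obtain ⟨e₀, he₀⟩ := hne
  rw [Finset.mem_filter] at he₀
  have he₀' := he₀.2
  subst he₀'
  induction z with
  | _ q q' =>
    rw [mem_Zs] at hz
    have hqq : (Sum.inl q : Pos x y ⊕ Sym2 (Pos x y)) ≠ Sum.inl q' := by
      simpa using hz.1
    have h4 : sz x y a b p (Sum.inl q) * sz x y a b p (Sum.inl q') *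
        sz x y a b p (Sum.inr s(q, q')) = c * (p - 1) := by
      simp only [sz, Sum.elim_inl, Sum.elim_inr, cap, hcap, if_false]
      rw [hs q q' rfl]
    have h3 := cnt3 (sz x y a b p) (ω₁ := Sum.inl q) (ω₂ := Sum.inl q')
      (ω₃ := Sum.inr s(q, q')) hqq (by simp) (by simp) (e₀ (Sum.inl q) : ℕ)
      (e₀ (Sum.inl q') : ℕ) (e₀ (Sum.inr s(q, q')) : ℕ)
    have h3' := cnt3 (sz x y a b p) (ω₁ := Sum.inl q) (ω₂ := Sum.inl q')
      (ω₃ := Sum.inr s(q, q')) hqq (by simp) (by simp) (e₀ (Sum.inl q') : ℕ)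
      (e₀ (Sum.inl q) : ℕ) (e₀ (Sum.inr s(q, q')) : ℕ)
    rw [h4] at h3 h3'
    have hsub : (univ.filter (fun e : Pl x y a b p => slot e s(q, q') = slot e₀ s(q, q'))) ⊆
        (univ.filter (fun e : Pl x y a b p => (e (Sum.inl q) : ℕ) = (e₀ (Sum.inl q) : ℕ) ∧
          (e (Sum.inl q') : ℕ) = (e₀ (Sum.inl q') : ℕ) ∧
          (e (Sum.inr s(q, q')) : ℕ) = (e₀ (Sum.inr s(q, q')) : ℕ))) ∪
        (univ.filter (fun e : Pl x y a b p => (e (Sum.inl q) : ℕ) = (e₀ (Sum.inl q') : ℕ) ∧
          (e (Sum.inl q') : ℕ) = (e₀ (Sum.inl q) : ℕ) ∧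
          (e (Sum.inr s(q, q')) : ℕ) = (e₀ (Sum.inr s(q, q')) : ℕ))) := by
      intro e he
      rw [Finset.mem_filter] at he
      rw [Finset.mem_union, Finset.mem_filter, Finset.mem_filter]
      have h5 := he.2
      unfold slot at h5
      rw [Prod.mk.injEq] at h5
      obtain ⟨h6, h7⟩ := h5
      rw [Sym2.map_mk, Sym2.map_mk, Sym2.eq_iff] at h6
      rcases h6 with ⟨h6, h8⟩ | ⟨h6, h8⟩
      · exact Or.inl ⟨mem_univ _, Fm_eq_iff h6, Fm_eq_iff h8, h7⟩
      · exact Or.inr ⟨mem_univ _, Fm_eq_iff h6, Fm_eq_iff h8, h7⟩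
    have h9 := (Finset.card_le_card hsub).trans (Finset.card_union_le _ _)
    calc _ ≤ _ := Nat.mul_le_mul_right (c * (p - 1)) h9
      _ ≤ 2 * ∏ ω, sz x y a b p ω := by
        rw [add_mul]
        linarith

theorem slot_two {μ : ℕ} (hμa : μ ≤ a) (hμb : μ ≤ b) {z z' : Sym2 (Pos x y)} (hz : z ∈ Zs x y)
    (hz' : z' ∈ Zs x y) (hzz : z ≠ z') (σ τ : Sym2 (Fin a ⊕ Fin b) × ℕ) :
    (univ.filter (fun e : Pl x y a b p => slot e z = σ ∧ slot e z' = τ)).card * μ ^ 3 ≤
      4 * ∏ ω, sz x y a b p ω := by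
  by_cases hne : (univ.filter (fun e : Pl x y a b p => slot e z = σ ∧ slot e z' = τ)).Nonempty
  swap
  · rw [Finset.not_nonempty_iff_eq_empty] at hne
    rw [hne]; simp
  obtain ⟨e₀, he₀⟩ := hne
  rw [Finset.mem_filter] at he₀
  obtain ⟨-, he₀', he₀''⟩ := he₀
  subst he₀' he₀''
  induction z with
  | _ q q' =>
    induction z' with
    | _ r r' =>
      rw [mem_Zs] at hz hz'
      have hnvμ : ∀ t : Pos x y, μ ≤ nv x y a b t := by
        intro t
        rcases t with t | t
        · exact hμa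
        · exact hμb
      -- a position of the second pair which is not in the first pair
      obtain ⟨t, ht, htq, htq'⟩ : ∃ t, (t = r ∨ t = r') ∧ t ≠ q ∧ t ≠ q' := by
        by_contra hcon
        push Not at hcon
        have h1 : r = q ∨ r = q' := by
          by_cases h : r = q
          · exact Or.inl h
          · exact Or.inr (hcon r (Or.inl rfl) h)
        have h2 : r' = q ∨ r' = q' := by
          by_cases h : r' = q
          · exact Or.inl h
          · exact Or.inr (hcon r' (Or.inr rfl) h)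
        apply hzz
        rcases h1 with rfl | rfl <;> rcases h2 with rfl | rfl
        · exact absurd rfl hz'.1
        · rfl
        · exact Sym2.eq_swap
        · exact absurd rfl hz'.1
      have key : ∀ n₁ n₂ n₃ : ℕ, (univ.filter (fun e : Pl x y a b p =>
          (e (Sum.inl q) : ℕ) = n₁ ∧ (e (Sum.inl q') : ℕ) = n₂ ∧ (e (Sum.inl t) : ℕ) = n₃)).card *
          μ ^ 3 ≤ ∏ ω, sz x y a b p ω := by
        intro n₁ n₂ n₃
        have h3 := cnt3 (sz x y a b p) (ω₁ := Sum.inl q) (ω₂ := Sum.inl q')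
          (ω₃ := Sum.inl t) (by simpa using hz.1) (by simpa using htq.symm)
          (by simpa using htq'.symm) n₁ n₂ n₃
        refine le_trans (Nat.mul_le_mul_left _ ?_) h3
        calc μ ^ 3 = μ * μ * μ := by ring
          _ ≤ _ := Nat.mul_le_mul (Nat.mul_le_mul (hnvμ q) (hnvμ q')) (hnvμ t)
      set n := (e₀ (Sum.inl q) : ℕ)
      set n' := (e₀ (Sum.inl q') : ℕ)
      set l := (e₀ (Sum.inl r) : ℕ)
      set l' := (e₀ (Sum.inl r') : ℕ)
      have hsub : (univ.filter (fun e : Pl x y a b p => slot e s(q, q') = slot e₀ s(q, q') ∧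
          slot e s(r, r') = slot e₀ s(r, r'))) ⊆
        ((univ.filter (fun e : Pl x y a b p =>
          (e (Sum.inl q) : ℕ) = n ∧ (e (Sum.inl q') : ℕ) = n' ∧ (e (Sum.inl t) : ℕ) = l)) ∪
        (univ.filter (fun e : Pl x y a b p =>
          (e (Sum.inl q) : ℕ) = n ∧ (e (Sum.inl q') : ℕ) = n' ∧ (e (Sum.inl t) : ℕ) = l'))) ∪
        ((univ.filter (fun e : Pl x y a b p =>
          (e (Sum.inl q) : ℕ) = n' ∧ (e (Sum.inl q') : ℕ) = n ∧ (e (Sum.inl t) : ℕ) = l)) ∪
        (univ.filter (fun e : Pl x y a b p =>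
          (e (Sum.inl q) : ℕ) = n' ∧ (e (Sum.inl q') : ℕ) = n ∧ (e (Sum.inl t) : ℕ) = l'))) := by
        intro e he
        rw [Finset.mem_filter] at he
        obtain ⟨-, h5, h6⟩ := he
        unfold slot at h5 h6
        rw [Prod.mk.injEq] at h5 h6
        obtain ⟨h7, -⟩ := h5
        obtain ⟨h8, -⟩ := h6
        rw [Sym2.map_mk, Sym2.map_mk, Sym2.eq_iff] at h7 h8
        have ht' : (e (Sum.inl t) : ℕ) = l ∨ (e (Sum.inl t) : ℕ) = l' := by
          rcases ht with rfl | rfl <;> rcases h8 with ⟨h8, h9⟩ | ⟨h8, h9⟩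
          · exact Or.inl (Fm_eq_iff h8)
          · exact Or.inr (Fm_eq_iff h8)
          · exact Or.inr (Fm_eq_iff h9)
          · exact Or.inl (Fm_eq_iff h9)
        simp only [Finset.mem_union, Finset.mem_filter, Finset.mem_univ, true_and]
        rcases h7 with ⟨h7, h9⟩ | ⟨h7, h9⟩
        · left
          have h10 := Fm_eq_iff h7
          have h11 := Fm_eq_iff h9
          rcases ht' with h | h
          · exact Or.inl ⟨h10, h11, h⟩
          · exact Or.inr ⟨h10, h11, h⟩
        · right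
          have h10 := Fm_eq_iff h7
          have h11 := Fm_eq_iff h9
          rcases ht' with h | h
          · exact Or.inl ⟨h10, h11, h⟩
          · exact Or.inr ⟨h10, h11, h⟩
      have h9 := (Finset.card_le_card hsub).trans ((Finset.card_union_le _ _).trans
        (Nat.add_le_add (Finset.card_union_le _ _) (Finset.card_union_le _ _)))
      have k1 := key n n' l
      have k2 := key n n' l'
      have k3 := key n' n l
      have k4 := key n' n l'
      calc _ ≤ _ := Nat.mul_le_mul_right (μ ^ 3) h9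
        _ ≤ 4 * ∏ ω, sz x y a b p ω := by
          rw [add_mul, add_mul, add_mul]
          linarith

theorem noninj {μ : ℕ} (hμ : 0 < μ) (hμa : μ ≤ a) (hμb : μ ≤ b) :
    (univ.filter (fun e : Pl x y a b p => ¬ Function.Injective (Fm e))).card * μ ≤
      Fintype.card (Pos x y) ^ 2 * ∏ ω, sz x y a b p ω := by
  have hsub : (univ.filter (fun e : Pl x y a b p => ¬ Function.Injective (Fm e))) ⊆
      ((univ : Finset (Pos x y × Pos x y)).filter (fun w => w.1 ≠ w.2)).biUnion
        (fun w => univ.filter (fun e : Pl x y a b p =>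
          (e (Sum.inl w.1) : ℕ) = (e (Sum.inl w.2) : ℕ))) := by
    intro e he
    rw [Finset.mem_filter] at he
    have h1 := he.2
    unfold Function.Injective at h1
    push Not at h1
    obtain ⟨q, q', h2, h3⟩ := h1
    rw [Finset.mem_biUnion]
    refine ⟨(q, q'), ?_, ?_⟩
    · simp [h3]
    · simp only [Finset.mem_filter, Finset.mem_univ, true_and]
      exact Fm_eq_iff h2
  have h1 := (Finset.card_le_card hsub).trans Finset.card_biUnion_le
  have h2 : ∀ w ∈ (univ : Finset (Pos x y × Pos x y)).filter (fun w => w.1 ≠ w.2),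
      (univ.filter (fun e : Pl x y a b p =>
          (e (Sum.inl w.1) : ℕ) = (e (Sum.inl w.2) : ℕ))).card * μ ≤ ∏ ω, sz x y a b p ω := by
    intro w hw
    rw [Finset.mem_filter] at hw
    have hnvμ : ∀ t : Pos x y, μ ≤ nv x y a b t := by
      intro t
      rcases t with t | t
      · exact hμa
      · exact hμb
    have h3 := cnt_eq (sz x y a b p) (ω₁ := Sum.inl w.1) (ω₂ := Sum.inl w.2)
      (by simpa using hw.2) (lt_of_lt_of_le hμ (hnvμ w.1))
    exact le_trans (Nat.mul_le_mul_left _ (hnvμ w.2)) h3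
  calc _ ≤ (∑ w ∈ (univ : Finset (Pos x y × Pos x y)).filter (fun w => w.1 ≠ w.2),
      (univ.filter (fun e : Pl x y a b p =>
          (e (Sum.inl w.1) : ℕ) = (e (Sum.inl w.2) : ℕ))).card) * μ :=
        Nat.mul_le_mul_right _ h1
    _ = ∑ w ∈ (univ : Finset (Pos x y × Pos x y)).filter (fun w => w.1 ≠ w.2),
      (univ.filter (fun e : Pl x y a b p =>
          (e (Sum.inl w.1) : ℕ) = (e (Sum.inl w.2) : ℕ))).card * μ := Finset.sum_mul _ _ _
    _ ≤ ((univ : Finset (Pos x y × Pos x y)).filter (fun w => w.1 ≠ w.2)).card •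
        ∏ ω, sz x y a b p ω := Finset.sum_le_card_nsmul _ _ _ h2
    _ ≤ _ := by
        rw [smul_eq_mul]
        apply Nat.mul_le_mul_right
        refine (Finset.card_filter_le _ _).trans ?_
        rw [Finset.card_univ, Fintype.card_prod, sq]

theorem prod_sz_ge {μ : ℕ} (hμa : μ ≤ a) (hμb : μ ≤ b) (hp : 2 ≤ p) :
    μ ^ Fintype.card (Pos x y) ≤ ∏ ω, sz x y a b p ω := by
  rw [Fintype.prod_sum_type]
  have h1 : μ ^ Fintype.card (Pos x y) ≤ ∏ q : Pos x y, sz x y a b p (Sum.inl q) := by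
    rw [← Finset.card_univ, ← Finset.prod_const]
    apply Finset.prod_le_prod'
    intro t _
    rcases t with t | t
    · exact hμa
    · exact hμb
  have h2 : 1 ≤ ∏ z : Sym2 (Pos x y), sz x y a b p (Sum.inr z) := by
    apply Finset.one_le_prod'
    intro z _
    simp only [sz, Sum.elim_inr, cap]
    split_ifs <;> omega
  calc μ ^ Fintype.card (Pos x y) = μ ^ Fintype.card (Pos x y) * 1 := (mul_one _).symm
    _ ≤ _ := Nat.mul_le_mul h1 h2

end Pool.Agent.R88.PI
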