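import Pool.Agent.R88.PI.Pack

/-!
# From placements to `p`-intersection representations
-/

set_option autoImplicit false

namespace Pool.Agent.R88.PI

open Finset
open scoped Classical

variable {K : Type} [Fintype K] {x y : K → ℕ} {a b p : ℕ}

/-- the block `k` of the placement `e` contains the vertex `w` -/
def Hit (e : Pl x y a b p) (k : K) (w : Fin a ⊕ Fin b) : Prop :=
  ∃ q : Pos x y, bl q = k ∧ Fm e q = w

theorem mult_le (M : Finset (Pl x y a b p))
    (hM : ∀ e ∈ M, ∀ f ∈ M, e ≠ f → Disjoint (Ae e) (Ae f))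
    (hinj : ∀ e ∈ M, Function.Injective (Fm e)) {w w' : Fin a ⊕ Fin b} (hww : w ≠ w') :
    Nat.card {ek : {e // e ∈ M} × K // Hit ek.1.1 ek.2 w ∧ Hit ek.1.1 ek.2 w'} ≤
      if sd s(w, w') = s(true, false) then p else p - 1 := by
  generalize hc : (if sd s(w, w') = s(true, false) then p else p - 1) = c
  let T : Type := {ek : {e // e ∈ M} × K // Hit ek.1.1 ek.2 w ∧ Hit ek.1.1 ek.2 w'}
  have h1 : ∀ ek : T, ∃ q q' : Pos x y, bl q = ek.1.2 ∧ bl q' = ek.1.2 ∧ Fm ek.1.1.1 q = w ∧
        Fm ek.1.1.1 q' = w' := by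
    rintro ⟨ek, ⟨q, hq, hq'⟩, ⟨r, hr, hr'⟩⟩
    exact ⟨q, r, hq, hr, hq', hr'⟩
  choose q q' hq1 hq2 hq3 hq4 using h1
  have hz : ∀ ek : T, s(q ek, q' ek) ∈ Zs x y := by
    intro ek
    rw [mem_Zs]
    refine ⟨?_, (hq1 ek).trans (hq2 ek).symm⟩
    intro h
    apply hww
    have h1 := hq3 ek
    have h2 := hq4 ek
    rw [← h] at h2
    exact h1.symm.trans h2
  have hslot : ∀ ek : T, slot ek.1.1.1 s(q ek, q' ek) =
      (s(w, w'), ((ek.1.1.1 (Sum.inr s(q ek, q' ek))) : ℕ)) := by
    intro ek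
    unfold slot
    rw [Sym2.map_mk, hq3 ek, hq4 ek]
  have hcol : ∀ ek : T, ((ek.1.1.1 (Sum.inr s(q ek, q' ek))) : ℕ) < c := by
    intro ek
    have h2 := (ek.1.1.1 (Sum.inr s(q ek, q' ek))).2
    have h3 : sz x y a b p (Sum.inr s(q ek, q' ek)) = c := by
      have h4 := sd_slot ek.1.1.1 s(q ek, q' ek)
      rw [hslot ek] at h4
      simp only [sz, Sum.elim_inr, cap]
      rw [← h4, ← hc]
    exact lt_of_lt_of_eq h2 h3
  have hinjf : Function.Injective (fun ek : T =>
      (⟨((ek.1.1.1 (Sum.inr s(q ek, q' ek))) : ℕ), hcol ek⟩ : Fin c)) := by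
    intro ek ek' h
    have h2 : ((ek.1.1.1 (Sum.inr s(q ek, q' ek))) : ℕ) =
        ((ek'.1.1.1 (Sum.inr s(q ek', q' ek'))) : ℕ) := congrArg Fin.val h
    have h3 : slot ek.1.1.1 s(q ek, q' ek) = slot ek'.1.1.1 s(q ek', q' ek') := by
      rw [hslot ek, hslot ek', h2]
    have h4 : ek.1.1.1 = ek'.1.1.1 := by
      by_contra hne
      have h5 := hM _ ek.1.1.2 _ ek'.1.1.2 hne
      rw [Finset.disjoint_left] at h5
      apply h5 (a := slot ek.1.1.1 s(q ek, q' ek))
      · exact Finset.mem_image_of_mem _ (hz ek)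
      · rw [h3]
        exact Finset.mem_image_of_mem _ (hz ek')
    have h5 : q ek = q ek' := by
      apply hinj _ ek.1.1.2
      rw [hq3 ek]
      have h6 := hq3 ek'
      rw [← h4] at h6
      exact h6.symm
    have h6 : ek.1.2 = ek'.1.2 := by
      rw [← hq1 ek, ← hq1 ek', h5]
    apply Subtype.ext
    exact Prod.ext (Subtype.ext h4) h6
  have h7 := Nat.card_le_card_of_injective _ hinjf
  rwa [Nat.card_eq_fintype_card (α := Fin c), Fintype.card_fin] at h7

/-- the vertices of the first side in the block `k` -/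
noncomputable def Xs (e : Pl x y a b p) (k : K) : Finset (Fin a) :=
  univ.filter (fun u => Hit e k (Sum.inl u))

/-- the vertices of the second side in the block `k` -/
noncomputable def Ys (e : Pl x y a b p) (k : K) : Finset (Fin b) :=
  univ.filter (fun v => Hit e k (Sum.inr v))

theorem card_Xs {e : Pl x y a b p} (he : Function.Injective (Fm e)) (k : K) :
    (Xs e k).card = x k := by
  have h : Xs e k = (univ : Finset (Fin (x k))).image
      (fun i => (e (Sum.inl (Sum.inl ⟨k, i⟩)) : Fin a)) := by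
    ext u
    unfold Xs
    rw [Finset.mem_filter, Finset.mem_image]
    constructor
    · rintro ⟨-, q, hq, hq'⟩
      rcases q with ⟨k', i⟩ | ⟨k', i⟩
      · have h1 : k' = k := hq
        subst h1
        exact ⟨i, mem_univ _, Sum.inl.inj hq'⟩
      · exact absurd hq' (by simp [Fm])
    · rintro ⟨i, -, hi⟩
      exact ⟨mem_univ _, Sum.inl ⟨k, i⟩, rfl, congrArg Sum.inl hi⟩
  rw [h, Finset.card_image_of_injective, Finset.card_univ, Fintype.card_fin]
  intro i j hij
  have h1 : Fm e (Sum.inl ⟨k, i⟩) = Fm e (Sum.inl ⟨k, j⟩) := congrArg Sum.inl hij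
  have h2 := Sum.inl.inj (he h1)
  exact eq_of_heq (Sigma.mk.inj h2).2

theorem card_Ys {e : Pl x y a b p} (he : Function.Injective (Fm e)) (k : K) :
    (Ys e k).card = y k := by
  have h : Ys e k = (univ : Finset (Fin (y k))).image
      (fun i => (e (Sum.inl (Sum.inr ⟨k, i⟩)) : Fin b)) := by
    ext u
    unfold Ys
    rw [Finset.mem_filter, Finset.mem_image]
    constructor
    · rintro ⟨-, q, hq, hq'⟩
      rcases q with ⟨k', i⟩ | ⟨k', i⟩
      · exact absurd hq' (by simp [Fm])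
      · have h1 : k' = k := hq
        subst h1
        exact ⟨i, mem_univ _, Sum.inr.inj hq'⟩
    · rintro ⟨i, -, hi⟩
      exact ⟨mem_univ _, Sum.inr ⟨k, i⟩, rfl, congrArg Sum.inr hi⟩
  rw [h, Finset.card_image_of_injective, Finset.card_univ, Fintype.card_fin]
  intro i j hij
  have h1 : Fm e (Sum.inr ⟨k, i⟩) = Fm e (Sum.inr ⟨k, j⟩) := congrArg Sum.inr hij
  have h2 := Sum.inr.inj (he h1)
  exact eq_of_heq (Sigma.mk.inj h2).2

theorem theta_le_of_placements (hp : 1 ≤ p) (M : Finset (Pl x y a b p))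
    (hM : ∀ e ∈ M, ∀ f ∈ M, e ≠ f → Disjoint (Ae e) (Ae f))
    (hinj : ∀ e ∈ M, Function.Injective (Fm e)) :
    theta p (completeBipartiteGraph (Fin a) (Fin b)) + M.card * ∑ k, x k * y k ≤
      M.card * Fintype.card K + p * a * b := by
  obtain ⟨κ', hκ, X', Y', h1, h2, h3, h4⟩ := family_of_packing (a := a) (b := b) (p := p) hp
    (κ := {e // e ∈ M} × K) (fun ek => Xs ek.1.1 ek.2) (fun ek => Ys ek.1.1 ek.2)
    (by
      intro u u' huu
      have h := mult_le M hM hinj (w := Sum.inl u) (w' := Sum.inl u') (by simpa using huu)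
      have h' : sd s((Sum.inl u : Fin a ⊕ Fin b), Sum.inl u') ≠ s(true, false) := by
        simp [sd]
      rw [if_neg h'] at h
      refine lt_of_le_of_lt (le_of_eq ?_) (lt_of_le_of_lt h (by omega))
      apply Nat.card_congr
      apply Equiv.subtypeEquivRight
      intro ek
      simp only [Xs, Finset.mem_filter, Finset.mem_univ, true_and])
    (by
      intro u u' huu
      have h := mult_le M hM hinj (w := Sum.inr u) (w' := Sum.inr u') (by simpa using huu)
      have h' : sd s((Sum.inr u : Fin a ⊕ Fin b), Sum.inr u') ≠ s(true, false) := by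
        simp [sd]
      rw [if_neg h'] at h
      refine lt_of_le_of_lt (le_of_eq ?_) (lt_of_le_of_lt h (by omega))
      apply Nat.card_congr
      apply Equiv.subtypeEquivRight
      intro ek
      simp only [Ys, Finset.mem_filter, Finset.mem_univ, true_and])
    (by
      intro u v
      have h := mult_le M hM hinj (w := Sum.inl u) (w' := Sum.inr v) (by simp)
      have h' : sd s((Sum.inl u : Fin a ⊕ Fin b), Sum.inr v) = s(true, false) := by
        simp [sd]
      rw [if_pos h'] at h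
      refine (le_of_eq ?_).trans h
      apply Nat.card_congr
      apply Equiv.subtypeEquivRight
      intro ek
      simp only [Xs, Ys, Finset.mem_filter, Finset.mem_univ, true_and])
  have h5 := theta_le_of_family X' Y' h1 h2 h3
  have h6 : ∑ ek : {e // e ∈ M} × K, (Xs ek.1.1 ek.2).card * (Ys ek.1.1 ek.2).card =
      M.card * ∑ k, x k * y k := by
    rw [Fintype.sum_prod_type]
    have h7 : ∀ e : {e // e ∈ M}, ∑ k, (Xs e.1 k).card * (Ys e.1 k).card =
        ∑ k, x k * y k := by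
      intro e
      apply Finset.sum_congr rfl
      intro k _
      rw [card_Xs (hinj _ e.2), card_Ys (hinj _ e.2)]
    rw [Finset.sum_congr rfl (fun e _ => h7 e), Finset.sum_const, Finset.card_univ,
      Fintype.card_coe, smul_eq_mul]
  rw [h6] at h4
  rw [Fintype.card_prod, Fintype.card_coe] at h4
  omega

/-- The upper bound from a pattern. -/
theorem theta_le_of_pattern (x y : K → ℕ) {p : ℕ} (hp : 2 ≤ p) {s C θ : ℝ} (hs : 0 < s)
    (hC : 0 < C) (hθ : 0 < θ) (hxy : s * ∑ k, ((x k : ℝ) * y k) ≤ p)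
    (hpos : ∀ k, 1 ≤ x k * y k) (hbig : ∃ k, 2 ≤ x k * y k) :
    ∃ n0 : ℕ, ∀ a b : ℕ, n0 ≤ a → n0 ≤ b → (a : ℝ) ≤ C * b → (b : ℝ) ≤ C * a →
      s * (∑ k, ((x k : ℝ) * (x k - 1))) * b ≤ (p - 1) * a →
      s * (∑ k, ((y k : ℝ) * (y k - 1))) * a ≤ (p - 1) * b →
      (theta p (completeBipartiteGraph (Fin a) (Fin b)) : ℝ) ≤
        (p - (1 - θ) * (s * ∑ k, ((x k : ℝ) * y k - 1))) * (a * b) := by
  obtain ⟨k0, hk0⟩ := hbig
  have hx0 : 1 ≤ x k0 := by
    rcases Nat.eq_zero_or_pos (x k0) with h | h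
    · rw [h] at hk0; omega
    · exact h
  have hy0 : 1 ≤ y k0 := by
    rcases Nat.eq_zero_or_pos (y k0) with h | h
    · rw [h] at hk0; omega
    · exact h
  have h3 : 3 ≤ Fintype.card (Pos x y) := by
    rw [Fintype.card_sum, Fintype.card_sigma, Fintype.card_sigma]
    simp only [Fintype.card_fin]
    have h1 : x k0 ≤ ∑ k, x k := Finset.single_le_sum (fun _ _ => Nat.zero_le _) (mem_univ k0)
    have h2 : y k0 ≤ ∑ k, y k := Finset.single_le_sum (fun _ _ => Nat.zero_le _) (mem_univ k0)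
    have h4 : 3 ≤ x k0 + y k0 := by
      by_contra hcon
      have h5 : x k0 = 1 := by omega
      have h6 : y k0 = 1 := by omega
      rw [h5, h6] at hk0
      omega
    omega
  have hne : (Zs x y).Nonempty := by
    refine ⟨s(Sum.inl ⟨k0, ⟨0, hx0⟩⟩, Sum.inr ⟨k0, ⟨0, hy0⟩⟩), ?_⟩
    rw [mem_Zs]
    exact ⟨by simp, rfl⟩
  obtain ⟨n0, hn0⟩ := exists_placements x y hp hs hC hθ hxy h3 hne
  refine ⟨n0, ?_⟩
  intro a b ha hb hab hba hA hB
  obtain ⟨M, hM1, hM2, hM3⟩ := hn0 a b ha hb hab hba hA hB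
  have h := (Nat.cast_le (α := ℝ)).2 (theta_le_of_placements (p := p) (by omega) M hM1 hM2)
  push_cast at h
  have h4 : ∑ k, ((x k : ℝ) * y k - 1) = ∑ k, ((x k : ℝ) * y k) - (Fintype.card K : ℝ) := by
    rw [Finset.sum_sub_distrib]
    simp
  have h5 : 0 ≤ ∑ k, ((x k : ℝ) * y k - 1) := by
    apply Finset.sum_nonneg
    intro k _
    have : (1 : ℝ) ≤ (x k : ℝ) * y k := by exact_mod_cast hpos k
    linarith
  have h6 := mul_le_mul_of_nonneg_right hM3 h5
  rw [h4] at h6 ⊢
  generalize ∑ k, ((x k : ℝ) * y k) = T at *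
  nlinarith

end Pool.Agent.R88.PI
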