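import Pool.Agent.R88.PI.Floor
import Pool.Agent.R88.PI.Fam

/-!
# The asymptotic value of the `p`-intersection number of complete bipartite graphs
-/

set_option autoImplicit false

namespace Pool.Agent.R88.PI

open Finset Filter Topology

/-- The value of the linear program: the supremum of
`α p a b - (p - 1) (β a² + γ b²)` over all dual feasible `(α, β, γ)`. -/
noncomputable def gval (p : ℕ) (a b : ℝ) : ℝ :=
  sSup {v : ℝ | ∃ α β γ : ℝ, Dual α β γ ∧
    v = α * (p * a * b) - (p - 1) * (β * a ^ 2 + γ * b ^ 2)}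

theorem Dual.alpha_le {α β γ : ℝ} (h : Dual α β γ) : α ≤ 1 := by
  have := h.2.2.2 1 1
  simpa using this

theorem dual_zero : Dual 0 0 0 := ⟨le_rfl, le_rfl, le_rfl, fun x y => by simp⟩

theorem Dual.symm {α β γ : ℝ} (h : Dual α β γ) : Dual α γ β := by
  refine ⟨h.1, h.2.2.1, h.2.1, ?_⟩
  intro x y
  have := h.2.2.2 y x
  calc α * ((x : ℝ) * y) = α * ((y : ℝ) * x) := by ring
    _ ≤ _ := this
    _ = _ := by ring

theorem val_le {p : ℕ} (hp : 1 ≤ p) {a b : ℝ} (ha : 0 ≤ a) (hb : 0 ≤ b) {α β γ : ℝ}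
    (h : Dual α β γ) : α * (p * a * b) - (p - 1) * (β * a ^ 2 + γ * b ^ 2) ≤ p * a * b := by
  have hp' : (1 : ℝ) ≤ p := by exact_mod_cast hp
  have h1 : α * (p * a * b) ≤ 1 * (p * a * b) :=
    mul_le_mul_of_nonneg_right h.alpha_le (by positivity)
  have h2 : 0 ≤ (p - 1) * (β * a ^ 2 + γ * b ^ 2) :=
    mul_nonneg (by linarith) (add_nonneg (mul_nonneg h.2.1 (by positivity))
      (mul_nonneg h.2.2.1 (by positivity)))
  linarith

theorem bdd {p : ℕ} (hp : 1 ≤ p) {a b : ℝ} (ha : 0 ≤ a) (hb : 0 ≤ b) :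
    BddAbove {v : ℝ | ∃ α β γ : ℝ, Dual α β γ ∧
      v = α * (p * a * b) - (p - 1) * (β * a ^ 2 + γ * b ^ 2)} := by
  refine ⟨p * a * b, ?_⟩
  rintro v ⟨α, β, γ, h, rfl⟩
  exact val_le hp ha hb h

theorem le_gval {p : ℕ} (hp : 1 ≤ p) {a b : ℝ} (ha : 0 ≤ a) (hb : 0 ≤ b) {α β γ : ℝ}
    (h : Dual α β γ) :
    α * (p * a * b) - (p - 1) * (β * a ^ 2 + γ * b ^ 2) ≤ gval p a b :=
  le_csSup (bdd hp ha hb) ⟨α, β, γ, h, rfl⟩

theorem gval_le {p : ℕ} {a b c : ℝ} (h : ∀ α β γ : ℝ, Dual α β γ →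
    α * (p * a * b) - (p - 1) * (β * a ^ 2 + γ * b ^ 2) ≤ c) : gval p a b ≤ c := by
  apply csSup_le
  · exact ⟨_, 0, 0, 0, dual_zero, rfl⟩
  · rintro v ⟨α, β, γ, h', rfl⟩
    exact h α β γ h'

theorem gval_comm (p : ℕ) (a b : ℝ) : gval p a b = gval p b a := by
  unfold gval
  congr 1
  ext v
  constructor
  · rintro ⟨α, β, γ, h, rfl⟩
    exact ⟨α, γ, β, h.symm, by ring⟩
  · rintro ⟨α, β, γ, h, rfl⟩
    exact ⟨α, γ, β, h.symm, by ring⟩

theorem gval_le_theta {p : ℕ} (hp : 1 ≤ p) (a b : ℕ) :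
    gval p a b ≤ theta p (completeBipartiteGraph (Fin a) (Fin b)) :=
  gval_le (fun _ _ _ h => le_theta hp h a b)

theorem dual_one : Dual 1 1 1 := by
  refine ⟨zero_le_one, zero_le_one, zero_le_one, ?_⟩
  intro x y
  have h1 : (0 : ℝ) ≤ ((x : ℝ) - 1) * ((x : ℝ) - 1) := mul_self_nonneg _
  have h2 : (0 : ℝ) ≤ ((y : ℝ) - 1) * ((y : ℝ) - 1) := mul_self_nonneg _
  have h3 : (0 : ℝ) ≤ ((x : ℝ) - y) * ((x : ℝ) - y) := mul_self_nonneg _
  nlinarith

theorem gval_one {a b : ℝ} (ha : 0 ≤ a) (hb : 0 ≤ b) : gval 1 a b = a * b := by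
  apply le_antisymm
  · apply gval_le
    intro α β γ h
    have := val_le (p := 1) le_rfl ha hb h
    simpa using this
  · have := le_gval (p := 1) le_rfl ha hb dual_one
    simpa using this

theorem int_mul_pred_nonneg (m : ℤ) : 0 ≤ m * (m - 1) := by
  rcases lt_or_ge 0 m with h | h
  · exact mul_nonneg h.le (by omega)
  · exact mul_nonneg_of_nonpos_of_nonpos h (by omega)

theorem dual_near {p : ℕ} (hp : 2 ≤ p) : Dual (2 / p) (1 / p) (1 / (p - 1)) := by
  have hp' : (2 : ℝ) ≤ p := by exact_mod_cast hp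
  have hp1 : (0 : ℝ) < (p : ℝ) - 1 := by linarith
  refine ⟨by positivity, by positivity, by positivity, ?_⟩
  intro x y
  have h1 : (0 : ℝ) ≤ ((x : ℝ) - y) * ((x : ℝ) - y - 1) := by
    have := int_mul_pred_nonneg ((x : ℤ) - y)
    exact_mod_cast this
  have h2 : (0 : ℝ) ≤ ((y : ℝ) - (p - 1)) * ((y : ℝ) - (p - 1) - 1) := by
    have := int_mul_pred_nonneg ((y : ℤ) - (p - 1))
    exact_mod_cast this
  have h3 : 1 + 1 / (p : ℝ) * (x * (x - 1)) + 1 / ((p : ℝ) - 1) * (y * (y - 1)) -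
      2 / p * (x * y) = (((p : ℝ) - 1) * (((x : ℝ) - y) * ((x : ℝ) - y - 1)) +
        ((y : ℝ) - (p - 1)) * ((y : ℝ) - (p - 1) - 1)) / (p * (p - 1)) := by
    field_simp
    ring
  have h4 : 0 ≤ (((p : ℝ) - 1) * (((x : ℝ) - y) * ((x : ℝ) - y - 1)) +
        ((y : ℝ) - (p - 1)) * ((y : ℝ) - (p - 1) - 1)) / (p * (p - 1)) := by
    apply div_nonneg
    · exact add_nonneg (mul_nonneg hp1.le h1) h2
    · positivity
  linarith

theorem gval_near {p : ℕ} (hp : 2 ≤ p) {a b : ℝ} (hb : 0 ≤ b) (hba : b ≤ a)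
    (hab : (p - 1) * a ≤ p * b) :
    gval p a b = 2 * a * b - (p - 1) / p * a ^ 2 - b ^ 2 := by
  have hp' : (2 : ℝ) ≤ p := by exact_mod_cast hp
  have hp1 : (0 : ℝ) < (p : ℝ) - 1 := by linarith
  have hp0 : (0 : ℝ) < p := by linarith
  have ha : 0 ≤ a := hb.trans hba
  apply le_antisymm
  · apply gval_le
    intro α β γ h
    have h1 := h.2.2.2 p (p - 1)
    have h2 := h.2.2.2 p p
    have h3 := h.2.2.2 (p + 1) p
    rw [Nat.cast_sub (by omega), Nat.cast_one] at h1
    push_cast at h3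
    set t3 : ℝ := (p - 1) * (a - b) ^ 2 / 2 with ht3
    set t1 : ℝ := a * b - b ^ 2 - t3 with ht1
    set t2 : ℝ := a * b - (p - 1) * a ^ 2 / p with ht2
    have ht3' : 0 ≤ t3 := by positivity
    have ht1' : 0 ≤ t1 := by
      have h5 : (p - 1) * (a - b) ≤ b := by nlinarith
      have h6 : t1 = (a - b) * (2 * b - (p - 1) * (a - b)) / 2 := by rw [ht1, ht3]; ring
      rw [h6]
      apply div_nonneg _ (by norm_num)
      exact mul_nonneg (by linarith) (by linarith)
    have ht2' : 0 ≤ t2 := by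
      have h6 : t2 = a * (p * b - (p - 1) * a) / p := by rw [ht2]; field_simp
      rw [h6]
      apply div_nonneg _ hp0.le
      exact mul_nonneg ha (by linarith)
    have k1 := mul_le_mul_of_nonneg_left h1 ht1'
    have k2 := mul_le_mul_of_nonneg_left h2 ht2'
    have k3 := mul_le_mul_of_nonneg_left h3 ht3'
    have e1 : t1 * (p * (p - 1)) + t2 * (p * p) + t3 * ((p + 1) * p) = p * a * b := by
      rw [ht1, ht2, ht3]; field_simp; ring
    have e2 : t1 * (p * (p - 1)) + t2 * (p * (p - 1)) + t3 * ((p + 1) * p) =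
        (p - 1) * a ^ 2 := by
      rw [ht1, ht2, ht3]; field_simp; ring
    have e3 : t1 * ((p - 1) * (p - 1 - 1)) + t2 * (p * (p - 1)) + t3 * (p * (p - 1)) =
        (p - 1) * b ^ 2 := by
      rw [ht1, ht2, ht3]; field_simp; ring
    have e4 : t1 + t2 + t3 = 2 * a * b - (p - 1) / p * a ^ 2 - b ^ 2 := by
      rw [ht1, ht2, ht3]; field_simp; ring
    rw [← e4]
    calc α * (p * a * b) - (p - 1) * (β * a ^ 2 + γ * b ^ 2)
        = α * (p * a * b) - β * ((p - 1) * a ^ 2) - γ * ((p - 1) * b ^ 2) := by ring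
      _ = α * (t1 * (p * (p - 1)) + t2 * (p * p) + t3 * ((p + 1) * p)) -
          β * (t1 * (p * (p - 1)) + t2 * (p * (p - 1)) + t3 * ((p + 1) * p)) -
          γ * (t1 * ((p - 1) * (p - 1 - 1)) + t2 * (p * (p - 1)) + t3 * (p * (p - 1))) := by
          rw [e1, e2, e3]
      _ ≤ t1 + t2 + t3 := by nlinarith
  · have := le_gval (p := p) (by omega) ha hb (dual_near hp)
    refine le_trans (le_of_eq ?_) this
    field_simp
    ring

/-! ## Positivity -/

theorem dual_pos {p : ℕ} (hp : 1 ≤ p) {l : ℝ} (hl : 0 < l) :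
    Dual ((2 - 1 / p) * (2 / p / (l + 1 / l))) (1 / l * (2 / p / (l + 1 / l)))
      (l * (2 / p / (l + 1 / l))) := by
  have hp' : (1 : ℝ) ≤ p := by exact_mod_cast hp
  have hp0 : (0 : ℝ) < p := by linarith
  have h1p : 1 / (p : ℝ) ≤ 1 := by rw [div_le_one hp0]; exact hp'
  set ε : ℝ := 2 / p / (l + 1 / l) with hε
  have hε0 : 0 < ε := by positivity
  have hε1 : ε * (l + 1 / l) * p = 2 := by
    rw [hε]; field_simp
  refine ⟨mul_nonneg (by linarith) hε0.le, by positivity, by positivity, ?_⟩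
  intro x y
  have hx : (0 : ℝ) ≤ x := Nat.cast_nonneg x
  have hy : (0 : ℝ) ≤ y := Nat.cast_nonneg y
  -- `2 x y ≤ x² / l + l y²`
  have h1 : 2 * ((x : ℝ) * y) ≤ x ^ 2 / l + l * y ^ 2 := by
    have : x ^ 2 / l + l * y ^ 2 - 2 * ((x : ℝ) * y) = (x - l * y) ^ 2 / l := by
      field_simp; ring
    have h2 : 0 ≤ ((x : ℝ) - l * y) ^ 2 / l := by positivity
    linarith
  -- `x - x² / (2 p) ≤ p / 2`
  have h2 : ∀ z : ℝ, z - z ^ 2 / (2 * p) ≤ p / 2 := by
    intro z
    have : p / 2 - (z - z ^ 2 / (2 * p)) = (z - p) ^ 2 / (2 * p) := by field_simp; ring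
    have h3 : 0 ≤ (z - p) ^ 2 / (2 * p) := by positivity
    linarith
  have h3 : (x : ℝ) / l - x ^ 2 / l / (2 * p) ≤ p / 2 / l := by
    have := div_le_div_of_nonneg_right (h2 x) hl.le
    refine le_trans (le_of_eq ?_) this
    field_simp
  have h4 : l * (y : ℝ) - l * y ^ 2 / (2 * p) ≤ l * (p / 2) := by
    have := mul_le_mul_of_nonneg_left (h2 y) hl.le
    refine le_trans (le_of_eq ?_) this
    ring
  have h5 : (2 - 1 / p) * ((x : ℝ) * y) ≤ (1 - 1 / (2 * p)) * (x ^ 2 / l + l * y ^ 2) := by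
    have h6 : (0 : ℝ) ≤ 1 - 1 / (2 * p) := by
      have : 1 / (2 * (p : ℝ)) ≤ 1 := by rw [div_le_one (by positivity)]; linarith
      linarith
    have h7 := mul_le_mul_of_nonneg_left h1 h6
    refine le_trans (le_of_eq ?_) h7
    field_simp
  have h6 : ε * ((2 - 1 / p) * ((x : ℝ) * y)) ≤
      ε * ((x ^ 2 / l + l * y ^ 2) - (x / l + l * y) + (l + 1 / l) * p / 2) := by
    apply mul_le_mul_of_nonneg_left _ hε0.le
    refine h5.trans ?_
    have e1 : (1 - 1 / (2 * p)) * (x ^ 2 / l + l * y ^ 2) = (x ^ 2 / l + l * y ^ 2) -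
        (x ^ 2 / l / (2 * p) + l * y ^ 2 / (2 * p)) := by
      field_simp
    rw [e1]
    have e2 : (l + 1 / l) * p / 2 = l * (p / 2) + p / 2 / l := by ring
    rw [e2]
    linarith
  calc (2 - 1 / p) * ε * ((x : ℝ) * y) = ε * ((2 - 1 / p) * ((x : ℝ) * y)) := by ring
    _ ≤ _ := h6
    _ = 1 / l * ε * (x * (x - 1)) + l * ε * (y * (y - 1)) + (ε * (l + 1 / l) * p) / 2 := by
      ring
    _ = _ := by rw [hε1]; ring

/-- The value per edge at ratio `l`. -/
noncomputable def Dv (p : ℕ) (l : ℝ) : ℝ := gval p l 1 / l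

theorem Dv_pos {p : ℕ} (hp : 1 ≤ p) {l : ℝ} (hl : 0 < l) : 0 < Dv p l := by
  have hp' : (1 : ℝ) ≤ p := by exact_mod_cast hp
  have hp0 : (0 : ℝ) < p := by linarith
  apply div_pos _ hl
  refine lt_of_lt_of_le ?_ (le_gval hp hl.le zero_le_one (dual_pos hp hl))
  have hε0 : 0 < 2 / (p : ℝ) / (l + 1 / l) := by positivity
  have : (2 - 1 / (p : ℝ)) * (2 / p / (l + 1 / l)) * (p * l * 1) -
      (p - 1) * (1 / l * (2 / p / (l + 1 / l)) * l ^ 2 + l * (2 / p / (l + 1 / l)) * 1 ^ 2) =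
      2 / p / (l + 1 / l) * l := by
    field_simp
    ring
  rw [this]
  positivity

theorem val_le_Dv {p : ℕ} (hp : 1 ≤ p) {l : ℝ} (hl : 0 < l) {α β γ : ℝ} (h : Dual α β γ) :
    α * p - β * ((p - 1) * l) - γ * ((p - 1) / l) ≤ Dv p l := by
  unfold Dv
  rw [le_div_iff₀ hl]
  refine le_trans (le_of_eq ?_) (le_gval hp hl.le zero_le_one h)
  field_simp
  ring

/-! ## The asymptotics -/

section asymp

variable {p : ℕ} {a b : ℕ → ℕ} {l : ℝ}

theorem tendsto_b (hl : 0 < l) (ha : Tendsto a atTop atTop)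
    (hab : Tendsto (fun n => (a n : ℝ) / b n) atTop (𝓝 l)) : Tendsto b atTop atTop := by
  have h1 : Tendsto (fun n => (a n : ℝ)) atTop atTop := tendsto_natCast_atTop_atTop.comp ha
  have h2 : ∀ᶠ n in atTop, (a n : ℝ) / b n < 2 * l := hab.eventually_lt_const (by linarith)
  have h3 : ∀ᶠ n in atTop, 0 < (a n : ℝ) / b n := hab.eventually_const_lt hl
  rw [← tendsto_natCast_atTop_iff (R := ℝ)]
  have h4 : Tendsto (fun n => (a n : ℝ) / (2 * l)) atTop atTop :=
    h1.atTop_div_const (by linarith)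
  apply tendsto_atTop_mono' atTop _ h4
  filter_upwards [h2, h3] with n h5 h6
  have h7 : (0 : ℝ) < b n := by
    rcases (Nat.cast_nonneg (α := ℝ) (b n)).eq_or_lt with h | h
    · rw [← h, div_zero] at h6
      exact absurd h6 (lt_irrefl _)
    · exact h
  rw [div_lt_iff₀ h7] at h5
  rw [div_le_iff₀ (by linarith)]
  linarith

theorem eventually_theta_le (hp : 1 ≤ p) (hl : 0 < l) (ha : Tendsto a atTop atTop)
    (hab : Tendsto (fun n => (a n : ℝ) / b n) atTop (𝓝 l)) {v : ℝ} (hv : Dv p l < v) :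
    ∀ᶠ n in atTop, (theta p (completeBipartiteGraph (Fin (a n)) (Fin (b n))) : ℝ) ≤
      v * (a n * b n) := by
  have hp' : (1 : ℝ) ≤ p := by exact_mod_cast hp
  rcases le_or_gt (p : ℝ) v with hpv | hvp
  · apply Eventually.of_forall
    intro n
    have h1 := (Nat.cast_le (α := ℝ)).2 (theta_le (a := a n) (b := b n) hp)
    push_cast at h1
    calc _ ≤ (p : ℝ) * a n * b n := h1
      _ = p * (a n * b n) := by ring
      _ ≤ _ := mul_le_mul_of_nonneg_right hpv (by positivity)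
  have hp2 : 2 ≤ p := by
    by_contra hcon
    have hp1 : p = 1 := by omega
    have h1 := val_le_Dv (p := p) hp hl dual_one
    rw [hp1] at h1 hvp hv
    norm_num at h1 hvp
    linarith
  have hp1 : (0 : ℝ) < (p : ℝ) - 1 := by
    have : (2 : ℝ) ≤ p := by exact_mod_cast hp2
    linarith
  have hb := tendsto_b hl ha hab
  obtain ⟨K, hK, x, y, s, hs, h1, h2, h3, h4, h5, h6⟩ := exists_pattern (A := (p - 1) * l)
    (B := (p - 1) / l) hp2 (by positivity) (by positivity)
    (fun α β γ h => lt_of_le_of_lt (val_le_Dv hp hl h) hv) hvp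
  set T := s * ∑ k, ((x k : ℝ) * y k - 1) with hT
  have hT0 : 0 ≤ T := by
    apply mul_nonneg hs.le
    apply Finset.sum_nonneg
    intro k _
    have : (1 : ℝ) ≤ (x k : ℝ) * y k := by exact_mod_cast h5 k
    linarith
  obtain ⟨θ, hθ, hθ'⟩ : ∃ θ : ℝ, 0 < θ ∧ p - (1 - θ) * T ≤ v := by
    refine ⟨(v - (p - T)) / (T + 1), div_pos (by linarith) (by linarith), ?_⟩
    have h7 : (v - (p - T)) / (T + 1) * T ≤ v - (p - T) := by
      rw [div_mul_eq_mul_div, div_le_iff₀ (by linarith)]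
      nlinarith
    linarith
  obtain ⟨n0, hn0⟩ := theta_le_of_pattern x y hp2 (s := s) (C := max (2 * l) (2 / l)) (θ := θ) hs
    (lt_max_of_lt_left (by linarith)) hθ h1 h5 h6
  have hba : Tendsto (fun n => (b n : ℝ) / a n) atTop (𝓝 (1 / l)) := by
    have := hab.inv₀ hl.ne'
    simp only [inv_div] at this
    rwa [one_div]
  have e1 := ha.eventually_ge_atTop (max n0 1)
  have e2 := hb.eventually_ge_atTop (max n0 1)
  have e3 : ∀ᶠ n in atTop, (a n : ℝ) / b n < 2 * l := hab.eventually_lt_const (by linarith)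
  have e4 : ∀ᶠ n in atTop, (b n : ℝ) / a n < 2 / l := by
    apply hba.eventually_lt_const
    apply div_lt_div_of_pos_right _ hl
    norm_num
  have e5 : ∀ᶠ n in atTop, s * (∑ k, ((x k : ℝ) * (x k - 1))) / (p - 1) < (a n : ℝ) / b n := by
    apply hab.eventually_const_lt
    rw [div_lt_iff₀ hp1]
    linarith
  have e6 : ∀ᶠ n in atTop, s * (∑ k, ((y k : ℝ) * (y k - 1))) / (p - 1) < (b n : ℝ) / a n := by
    apply hba.eventually_const_lt
    rw [div_lt_iff₀ hp1]
    calc _ < _ := h3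
      _ = _ := by ring
  filter_upwards [e1, e2, e3, e4, e5, e6] with n f1 f2 f3 f4 f5 f6
  have ha0 : (0 : ℝ) < a n := by
    have : 0 < a n := lt_of_lt_of_le Nat.one_pos ((le_max_right _ _).trans f1)
    exact_mod_cast this
  have hb0 : (0 : ℝ) < b n := by
    have : 0 < b n := lt_of_lt_of_le Nat.one_pos ((le_max_right _ _).trans f2)
    exact_mod_cast this
  rw [div_lt_iff₀ hb0] at f3
  rw [div_lt_iff₀ ha0] at f4
  rw [div_lt_div_iff₀ hp1 hb0] at f5
  rw [div_lt_div_iff₀ hp1 ha0] at f6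
  have h7 := hn0 (a n) (b n) ((le_max_left _ _).trans f1) ((le_max_left _ _).trans f2)
    (f3.le.trans (mul_le_mul_of_nonneg_right (le_max_left _ _) hb0.le))
    (f4.le.trans (mul_le_mul_of_nonneg_right (le_max_right _ _) ha0.le))
    (by linarith) (by linarith)
  refine h7.trans ?_
  exact mul_le_mul_of_nonneg_right hθ' (by positivity)

theorem eventually_le_gval (hp : 1 ≤ p) (hl : 0 < l) (ha : Tendsto a atTop atTop)
    (hab : Tendsto (fun n => (a n : ℝ) / b n) atTop (𝓝 l)) {u : ℝ} (hu : u < Dv p l) :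
    ∀ᶠ n in atTop, u * (a n * b n) ≤ gval p (a n) (b n) := by
  have hp' : (1 : ℝ) ≤ p := by exact_mod_cast hp
  have hb := tendsto_b hl ha hab
  have h1 : u * l < gval p l 1 := by
    unfold Dv at hu
    rwa [lt_div_iff₀ hl] at hu
  obtain ⟨v, ⟨α, β, γ, h2, rfl⟩, h3⟩ := exists_lt_of_lt_csSup
    (⟨_, 0, 0, 0, dual_zero, rfl⟩ : Set.Nonempty {v : ℝ | ∃ α β γ : ℝ, Dual α β γ ∧
      v = α * (p * l * 1) - (p - 1) * (β * l ^ 2 + γ * 1 ^ 2)}) h1
  have hba : Tendsto (fun n => (b n : ℝ) / a n) atTop (𝓝 (1 / l)) := by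
    have := hab.inv₀ hl.ne'
    simp only [inv_div] at this
    rwa [one_div]
  have h4 : Tendsto (fun n => α * p - (p - 1) * (β * ((a n : ℝ) / b n) + γ * ((b n : ℝ) / a n)))
      atTop (𝓝 (α * p - (p - 1) * (β * l + γ * (1 / l)))) :=
    (((hab.const_mul β).add (hba.const_mul γ)).const_mul ((p : ℝ) - 1)).const_sub _
  have h5 : u < α * p - (p - 1) * (β * l + γ * (1 / l)) := by
    have h6 : (α * p - (p - 1) * (β * l + γ * (1 / l))) * l =
        α * (p * l * 1) - (p - 1) * (β * l ^ 2 + γ * 1 ^ 2) := by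
      field_simp
    rw [← h6] at h3
    exact lt_of_mul_lt_mul_right h3 hl.le
  have e1 := ha.eventually_ge_atTop 1
  have e2 := hb.eventually_ge_atTop 1
  filter_upwards [h4.eventually_const_lt h5, e1, e2] with n f1 f2 f3
  have ha0 : (0 : ℝ) < a n := by
    have : 0 < a n := f2
    exact_mod_cast this
  have hb0 : (0 : ℝ) < b n := by
    have : 0 < b n := f3
    exact_mod_cast this
  refine le_trans ?_ (le_gval hp ha0.le hb0.le h2)
  have h6 := mul_le_mul_of_nonneg_right f1.le (mul_pos ha0 hb0).le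
  refine h6.trans (le_of_eq ?_)
  field_simp

theorem tendsto_theta_div_gval (hp : 1 ≤ p) (hl : 0 < l) (ha : Tendsto a atTop atTop)
    (hab : Tendsto (fun n => (a n : ℝ) / b n) atTop (𝓝 l)) :
    Tendsto (fun n => (theta p (completeBipartiteGraph (Fin (a n)) (Fin (b n))) : ℝ) /
      gval p (a n) (b n)) atTop (𝓝 1) := by
  have hb := tendsto_b hl ha hab
  have hD := Dv_pos hp hl
  set D := Dv p l with hDdef
  rw [tendsto_order]
  constructor
  · intro c hc
    have e3 := eventually_le_gval hp hl ha hab (u := D / 2) (by rw [← hDdef]; linarith)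
    filter_upwards [e3, ha.eventually_ge_atTop 1, hb.eventually_ge_atTop 1] with n f1 f2 f3
    have ha0 : (0 : ℝ) < a n := by
      have : 0 < a n := f2
      exact_mod_cast this
    have hb0 : (0 : ℝ) < b n := by
      have : 0 < b n := f3
      exact_mod_cast this
    have hg : 0 < gval p (a n) (b n) := lt_of_lt_of_le (by positivity) f1
    refine lt_of_lt_of_le hc ?_
    rw [one_le_div hg]
    exact gval_le_theta hp (a n) (b n)
  · intro c hc
    -- choose `u < D < v` with `v < c u`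
    obtain ⟨ε, hε, hε1, hε2⟩ : ∃ ε : ℝ, 0 < ε ∧ ε < 1 ∧ (1 + ε) < c * (1 - ε) := by
      refine ⟨(c - 1) / (2 * (c + 1)), div_pos (by linarith) (by linarith), ?_, ?_⟩
      · rw [div_lt_one (by linarith)]
        linarith
      · have h1 : (c - 1) / (2 * (c + 1)) * (c + 1) = (c - 1) / 2 := by
          field_simp
        nlinarith
    have e1 := eventually_theta_le hp hl ha hab (v := (1 + ε) * D) (by rw [← hDdef]; nlinarith)
    have e3 := eventually_le_gval hp hl ha hab (u := (1 - ε) * D) (by rw [← hDdef]; nlinarith)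
    filter_upwards [e1, e3, ha.eventually_ge_atTop 1, hb.eventually_ge_atTop 1] with n f0 f1 f2 f3
    have ha0 : (0 : ℝ) < a n := by
      have : 0 < a n := f2
      exact_mod_cast this
    have hb0 : (0 : ℝ) < b n := by
      have : 0 < b n := f3
      exact_mod_cast this
    have hab0 : (0 : ℝ) < a n * b n := mul_pos ha0 hb0
    have hg : 0 < gval p (a n) (b n) :=
      lt_of_lt_of_le (mul_pos (mul_pos (by linarith) hD) hab0) f1
    rw [div_lt_iff₀ hg]
    have h1 : (1 + ε) * D * (a n * b n) < c * ((1 - ε) * D * (a n * b n)) := by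
      have h2 : 0 < D * (a n * b n) := mul_pos hD hab0
      nlinarith
    have h2 : c * ((1 - ε) * D * (a n * b n)) ≤ c * gval p (a n) (b n) :=
      mul_le_mul_of_nonneg_left f1 (by linarith)
    linarith

theorem tendsto_theta_div (hp : 1 ≤ p) (hl : 0 < l) (ha : Tendsto a atTop atTop)
    (hab : Tendsto (fun n => (a n : ℝ) / b n) atTop (𝓝 l)) :
    Tendsto (fun n => (theta p (completeBipartiteGraph (Fin (a n)) (Fin (b n))) : ℝ) /
      ((a n : ℝ) * b n)) atTop (𝓝 (gval p l 1 / l)) := by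
  have hb := tendsto_b hl ha hab
  rw [tendsto_order]
  constructor
  · intro c hc
    obtain ⟨c', h1, h2⟩ := exists_between hc
    have e3 := eventually_le_gval hp hl ha hab (u := c') h2
    filter_upwards [e3, ha.eventually_ge_atTop 1, hb.eventually_ge_atTop 1] with n f1 f2 f3
    have ha0 : (0 : ℝ) < a n := by
      have : 0 < a n := f2
      exact_mod_cast this
    have hb0 : (0 : ℝ) < b n := by
      have : 0 < b n := f3
      exact_mod_cast this
    refine lt_of_lt_of_le h1 ?_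
    rw [le_div_iff₀ (mul_pos ha0 hb0)]
    exact f1.trans (gval_le_theta hp (a n) (b n))
  · intro c hc
    obtain ⟨c', h1, h2⟩ := exists_between hc
    have e1 := eventually_theta_le hp hl ha hab (v := c') h1
    filter_upwards [e1, ha.eventually_ge_atTop 1, hb.eventually_ge_atTop 1] with n f0 f2 f3
    have ha0 : (0 : ℝ) < a n := by
      have : 0 < a n := f2
      exact_mod_cast this
    have hb0 : (0 : ℝ) < b n := by
      have : 0 < b n := f3
      exact_mod_cast this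
    refine lt_of_le_of_lt ?_ h2
    rw [div_le_iff₀ (mul_pos ha0 hb0)]
    exact f0

end asymp

end Pool.Agent.R88.PI
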