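import Pool.Agent.R88.PI.LP

/-!
# From a fractional solution to a pattern
-/

set_option autoImplicit false

namespace Pool.Agent.R88.PI

open Finset Filter Topology
open scoped NNReal

theorem exists_pattern {p : ℕ} (hp : 2 ≤ p) {A B v : ℝ} (hA : 0 < A) (hB : 0 < B)
    (hv : ∀ α β γ, Dual α β γ → α * p - β * A - γ * B < v) (hvp : v < p) :
    ∃ (K : Type) (_ : Fintype K) (x y : K → ℕ) (s : ℝ), 0 < s ∧
      s * ∑ k, ((x k : ℝ) * y k) ≤ p ∧ s * (∑ k, ((x k : ℝ) * (x k - 1))) < A ∧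
      s * (∑ k, ((y k : ℝ) * (y k - 1))) < B ∧ p - s * ∑ k, ((x k : ℝ) * y k - 1) < v ∧
      (∀ k, 1 ≤ x k * y k) ∧ ∃ k, 2 ≤ x k * y k := by
  have hp0 : (0 : ℝ) < p := by
    have : 0 < p := by omega
    exact_mod_cast this
  obtain ⟨c, hc⟩ := exists_primal hp0 hA hB hv
  have hLc : ∀ i, (Finsupp.linearCombination ℝ≥0 col c) i = ∑ t ∈ c.support, (c t : ℝ) * col t i := by
    intro i
    rw [Finsupp.linearCombination_apply, Finsupp.sum, Finset.sum_apply]
    rfl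
  -- large denominators
  have hlim : ∀ i, Tendsto (fun Q : ℕ => ∑ t ∈ c.support,
      ((⌊(c t : ℝ) * (Q : ℝ)⌋₊ : ℝ) / (Q : ℝ)) * col t i) atTop
      (𝓝 (∑ t ∈ c.support, (c t : ℝ) * col t i)) := by
    intro i
    apply tendsto_finset_sum
    intro t _
    apply Tendsto.mul_const
    exact (tendsto_nat_floor_mul_div_atTop (c t).2).comp tendsto_natCast_atTop_atTop
  have hev : ∀ i, ∀ᶠ Q : ℕ in atTop, ∑ t ∈ c.support,
      ((⌊(c t : ℝ) * (Q : ℝ)⌋₊ : ℝ) / (Q : ℝ)) * col t i < ![v - p, p, A, B] i := by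
    intro i
    apply (hlim i).eventually_lt_const
    rw [← hLc i]
    exact hc i
  have hev' := (eventually_all.2 hev).and (eventually_ge_atTop 1)
  obtain ⟨Q, hQ, hQ1⟩ := hev'.exists
  have hQ0 : (0 : ℝ) < Q := by
    have : 0 < Q := hQ1
    exact_mod_cast this
  let n : ℕ × ℕ → ℕ := fun t => ⌊(c t : ℝ) * (Q : ℝ)⌋₊
  let K : Type := Σ t : c.support, Fin (n t.1)
  have hsum : ∀ F : ℕ × ℕ → ℝ, (1 / (Q : ℝ)) * ∑ k : K, F k.1.1 =
      ∑ t ∈ c.support, ((⌊(c t : ℝ) * (Q : ℝ)⌋₊ : ℝ) / (Q : ℝ)) * F t := by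
    intro F
    rw [Fintype.sum_sigma]
    simp only [Finset.sum_const, Finset.card_univ, Fintype.card_fin, nsmul_eq_mul]
    rw [Finset.sum_coe_sort c.support (fun t => (n t : ℝ) * F t), Finset.mul_sum]
    apply Finset.sum_congr rfl
    intro t _
    simp only [n]
    ring
  have h0 := hQ 0
  have h1 := hQ 1
  have h2 := hQ 2
  have h3 := hQ 3
  rw [← hsum (fun t => col t 0)] at h0
  rw [← hsum (fun t => col t 1)] at h1
  rw [← hsum (fun t => col t 2)] at h2
  rw [← hsum (fun t => col t 3)] at h3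
  refine ⟨K, inferInstance, fun k => k.1.1.1 + 1, fun k => k.1.1.2 + 1, 1 / (Q : ℝ),
    by positivity, ?_, ?_, ?_, ?_, ?_, ?_⟩
  · refine le_of_eq_of_le ?_ h1.le
    congr 1
    apply Finset.sum_congr rfl
    intro k _
    simp [col]
  · refine lt_of_eq_of_lt ?_ h2
    congr 1
    apply Finset.sum_congr rfl
    intro k _
    simp [col]
  · refine lt_of_eq_of_lt ?_ h3
    congr 1
    apply Finset.sum_congr rfl
    intro k _
    simp [col]
  · have h4 : (1 / (Q : ℝ)) * ∑ k : K, col k.1.1 0 = -((1 / (Q : ℝ)) *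
        ∑ k : K, ((((k.1.1.1 + 1 : ℕ)) : ℝ) * ((k.1.1.2 + 1 : ℕ) : ℝ) - 1)) := by
      rw [← mul_neg, ← Finset.sum_neg_distrib]
      congr 1
      apply Finset.sum_congr rfl
      intro k _
      simp [col]
    rw [h4] at h0
    have h5 : (![v - (p : ℝ), p, A, B] : Fin 4 → ℝ) 0 = v - p := rfl
    rw [h5] at h0
    linarith
  · intro k
    exact Nat.mul_pos (Nat.succ_pos _) (Nat.succ_pos _)
  · by_contra hcon
    push Not at hcon
    have h4 : (1 / (Q : ℝ)) * ∑ k : K, col k.1.1 0 = 0 := by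
      have : ∀ k : K, col k.1.1 0 = 0 := by
        intro k
        have h5 := hcon k
        have h6 : (k.1.1.1 + 1) * (k.1.1.2 + 1) = 1 := by
          have : 1 ≤ (k.1.1.1 + 1) * (k.1.1.2 + 1) := Nat.mul_pos (Nat.succ_pos _) (Nat.succ_pos _)
          omega
        have h7 : (((k.1.1.1 : ℝ) + 1) * ((k.1.1.2 : ℝ) + 1)) = 1 := by exact_mod_cast h6
        simp [col, h7]
      rw [Finset.sum_congr rfl (fun k _ => this k)]
      simp
    rw [h4] at h0
    have h5 : (![v - (p : ℝ), p, A, B] : Fin 4 → ℝ) 0 = v - p := rfl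
    rw [h5] at h0
    linarith

end Pool.Agent.R88.PI
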