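import Pool.Agent.R88.PI.Basic

/-!
# Duality for the linear program
-/

set_option autoImplicit false

namespace Pool.Agent.R88.PI

open Finset Filter Topology
open scoped NNReal

/-- the column of the type `(t.1 + 1, t.2 + 1)` -/
def col (t : ℕ × ℕ) : Fin 4 → ℝ :=
  ![-(((t.1 : ℝ) + 1) * (t.2 + 1) - 1), ((t.1 : ℝ) + 1) * (t.2 + 1), ((t.1 : ℝ) + 1) * t.1,
    ((t.2 : ℝ) + 1) * t.2]

theorem exists_primal {p A B v : ℝ} (hp : 0 < p) (hA : 0 < A) (hB : 0 < B)
    (hv : ∀ α β γ, Dual α β γ → α * p - β * A - γ * B < v) :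
    ∃ c : ℕ × ℕ →₀ ℝ≥0, ∀ i, (Finsupp.linearCombination ℝ≥0 col c) i < ![v - p, p, A, B] i := by
  set d : Fin 4 → ℝ := ![v - p, p, A, B] with hd
  set L := Finsupp.linearCombination ℝ≥0 col with hL
  let U : Set (Fin 4 → ℝ) := {u | ∃ c : ℕ × ℕ →₀ ℝ≥0, ∀ i, L c i < d i + u i}
  by_contra hcon
  have h0 : (0 : Fin 4 → ℝ) ∉ U := by
    rintro ⟨c, hc⟩
    exact hcon ⟨c, fun i => by simpa using hc i⟩
  have hconv : Convex ℝ U := by
    intro u hu u' hu' s t hs ht hst
    obtain ⟨c, hc⟩ := hu
    obtain ⟨c', hc'⟩ := hu'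
    let s' : ℝ≥0 := ⟨s, hs⟩
    let t' : ℝ≥0 := ⟨t, ht⟩
    refine ⟨s' • c + t' • c', ?_⟩
    intro i
    rw [map_add, map_smul, map_smul]
    simp only [Pi.add_apply, Pi.smul_apply, smul_eq_mul]
    have e1 : (s' • L c i : ℝ) = s * L c i := rfl
    have e2 : (t' • L c' i : ℝ) = t * L c' i := rfl
    rw [e1, e2]
    have h1 := hc i
    have h2 := hc' i
    have h3 : d i + (s * u i + t * u' i) = s * (d i + u i) + t * (d i + u' i) := by
      have : d i = (s + t) * d i := by rw [hst, one_mul]
      nlinarith
    rw [h3]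
    rcases hs.eq_or_lt with h | h
    · have ht1 : t = 1 := by rw [← h] at hst; linarith
      rw [← h, ht1]
      linarith
    · have h4 : s * L c i < s * (d i + u i) := mul_lt_mul_of_pos_left h1 h
      have h5 : t * L c' i ≤ t * (d i + u' i) := mul_le_mul_of_nonneg_left h2.le ht
      linarith
  have hopen : IsOpen U := by
    have : U = ⋃ c : ℕ × ℕ →₀ ℝ≥0, ⋂ i, {u : Fin 4 → ℝ | L c i < d i + u i} := by
      ext u
      simp [U]
    rw [this]
    apply isOpen_iUnion
    intro c
    apply isOpen_iInter_of_finite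
    intro i
    exact isOpen_lt continuous_const (continuous_const.add (continuous_apply i))
  obtain ⟨f, hf⟩ := geometric_hahn_banach_open_point hconv hopen h0
  rw [map_zero] at hf
  let cf : Fin 4 → ℝ := fun i => - f (fun j => if i = j then 1 else 0)
  have hfu : ∀ u : Fin 4 → ℝ, f u = - ∑ i, u i * cf i := by
    intro u
    have h1 := LinearMap.pi_apply_eq_sum_univ (f : (Fin 4 → ℝ) →ₗ[ℝ] ℝ) u
    have h2 : f u = ∑ i, u i • f (fun j => if i = j then 1 else 0) := h1
    rw [h2, ← Finset.sum_neg_distrib]
    apply Finset.sum_congr rfl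
    intro i _
    simp [cf]
  have hU : ∀ u ∈ U, 0 < ∑ i, u i * cf i := by
    intro u hu
    have := hf u hu
    rw [hfu] at this
    linarith
  -- the main inequality
  have hmain : ∀ c : ℕ × ℕ →₀ ℝ≥0, 0 ≤ ∑ i, (L c i - d i) * cf i := by
    intro c
    by_contra hneg
    push Not at hneg
    set X := ∑ i, (L c i - d i) * cf i with hX
    set S := ∑ i, cf i with hS
    have h1 : ∀ ε : ℝ, 0 < ε → 0 < X + ε * S := by
      intro ε hε
      have h2 := hU (fun i => L c i - d i + ε) ⟨c, fun i => by simp; linarith⟩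
      have h3 : ∑ i, (L c i - d i + ε) * cf i = X + ε * S := by
        rw [hX, hS, Finset.mul_sum, ← Finset.sum_add_distrib]
        apply Finset.sum_congr rfl
        intro i _
        ring
      rwa [h3] at h2
    have h2 := h1 (-X / (|S| + 1)) (div_pos (by linarith) (by positivity))
    have h3 : -X / (|S| + 1) * S ≤ -X / (|S| + 1) * |S| :=
      mul_le_mul_of_nonneg_left (le_abs_self S) (div_nonneg (by linarith) (by positivity))
    have h4 : -X / (|S| + 1) * |S| < -X := by
      rw [div_mul_eq_mul_div, div_lt_iff₀ (by positivity)]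
      nlinarith [abs_nonneg S]
    linarith
  have hnn : ∀ i, 0 ≤ cf i := by
    intro i
    by_contra hneg
    push Not at hneg
    set X := ∑ j, (1 - d j) * cf j with hX
    have h1 : ∀ t : ℝ, 0 ≤ t → 0 < X + t * cf i := by
      intro t ht
      have h2 := hU (fun j => 1 - d j + (if j = i then t else 0)) ⟨0, fun j => by
        simp only [map_zero, Pi.zero_apply]
        split_ifs <;> linarith⟩
      have h3 : ∑ j, (1 - d j + (if j = i then t else 0)) * cf j = X + t * cf i := by
        rw [hX]
        have h4 : ∀ j, (1 - d j + (if j = i then t else 0)) * cf j =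
            (1 - d j) * cf j + (if j = i then t * cf j else 0) := by
          intro j
          split_ifs <;> ring
        rw [Finset.sum_congr rfl (fun j _ => h4 j), Finset.sum_add_distrib]
        congr 1
        simp
      rwa [h3] at h2
    have h2 := h1 0 le_rfl
    have h3 := h1 (X / (- cf i)) (div_nonneg (by linarith) (by linarith))
    have h4 : X / (- cf i) * cf i = -X := by
      have : cf i ≠ 0 := ne_of_lt hneg
      field_simp
    rw [h4] at h3
    linarith
  -- consequences
  have hI := hmain 0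
  have hI' : (v - p) * cf 0 + p * cf 1 + A * cf 2 + B * cf 3 ≤ 0 := by
    simp only [map_zero, Pi.zero_apply, Fin.sum_univ_four, hd] at hI
    simp at hI
    linarith
  have hII : ∀ t : ℕ × ℕ, 0 ≤ ∑ i, col t i * cf i := by
    intro t
    by_contra hneg
    push Not at hneg
    set X := ∑ i, col t i * cf i with hX
    set Y := ∑ i, d i * cf i with hY
    have h1 : ∀ r : ℝ, 0 ≤ r → 0 ≤ r * X - Y := by
      intro r hr
      let r' : ℝ≥0 := ⟨r, hr⟩
      have h2 := hmain (Finsupp.single t r')
      have h3 : ∀ i, L (Finsupp.single t r') i = r * col t i := by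
        intro i
        rw [hL, Finsupp.linearCombination_single]
        rfl
      have h4 : ∑ i, (L (Finsupp.single t r') i - d i) * cf i = r * X - Y := by
        rw [hX, hY, Finset.mul_sum, ← Finset.sum_sub_distrib]
        apply Finset.sum_congr rfl
        intro i _
        rw [h3 i]
        ring
      rwa [h4] at h2
    have h2 := h1 ((|Y| + 1) / (-X)) (div_nonneg (by positivity) (by linarith))
    have h4 : (|Y| + 1) / (-X) * X = -(|Y| + 1) := by
      have : X ≠ 0 := ne_of_lt hneg
      field_simp
    rw [h4] at h2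
    have := neg_abs_le Y
    linarith
  have hc0 : 0 < cf 0 := by
    rcases (hnn 0).eq_or_lt with h | h
    swap
    · exact h
    exfalso
    rw [← h] at hI'
    have h1 := mul_nonneg hp.le (hnn 1)
    have h2 := mul_nonneg hA.le (hnn 2)
    have h3 := mul_nonneg hB.le (hnn 3)
    have e1 : cf 1 = 0 := by
      have : p * cf 1 = 0 := by linarith
      exact (mul_eq_zero.1 this).resolve_left hp.ne'
    have e2 : cf 2 = 0 := by
      have : A * cf 2 = 0 := by linarith
      exact (mul_eq_zero.1 this).resolve_left hA.ne'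
    have e3 : cf 3 = 0 := by
      have : B * cf 3 = 0 := by linarith
      exact (mul_eq_zero.1 this).resolve_left hB.ne'
    have h4 := hU (fun j => 1 - d j) ⟨0, fun j => by
      simp only [map_zero, Pi.zero_apply]
      linarith⟩
    rw [Fin.sum_univ_four, ← h, e1, e2, e3] at h4
    simp at h4
  -- the dual point
  set α := 1 - cf 1 / cf 0 with hα
  set β := cf 2 / cf 0 with hβ
  set γ := cf 3 / cf 0 with hγ
  have hβ0 : 0 ≤ β := div_nonneg (hnn 2) hc0.le
  have hγ0 : 0 ≤ γ := div_nonneg (hnn 3) hc0.le
  have e1 : cf 1 = (1 - α) * cf 0 := by rw [hα]; field_simp; ring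
  have e2 : cf 2 = β * cf 0 := by rw [hβ]; field_simp
  have e3 : cf 3 = γ * cf 0 := by rw [hγ]; field_simp
  have hval : v ≤ α * p - β * A - γ * B := by
    rw [e1, e2, e3] at hI'
    have h1 : (v - (α * p - β * A - γ * B)) * cf 0 ≤ 0 := by
      calc (v - (α * p - β * A - γ * B)) * cf 0 = (v - p) * cf 0 + p * ((1 - α) * cf 0) +
          A * (β * cf 0) + B * (γ * cf 0) := by ring
        _ ≤ 0 := hI'
    have h2 : v - (α * p - β * A - γ * B) ≤ 0 := by
      by_contra h3
      push Not at h3
      have := mul_pos h3 hc0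
      linarith
    linarith
  rcases lt_or_ge α 0 with hneg | hα0
  · have h1 := hv 0 0 0 ⟨le_rfl, le_rfl, le_rfl, fun x y => by simp⟩
    have h2 := mul_nonneg hβ0 hA.le
    have h3 := mul_nonneg hγ0 hB.le
    have h4 : α * p ≤ 0 := mul_nonpos_of_nonpos_of_nonneg hneg.le hp.le
    linarith
  · have hD : Dual α β γ := by
      refine ⟨hα0, hβ0, hγ0, ?_⟩
      intro x y
      have hq : ∀ n : ℕ, (0 : ℝ) ≤ n * (n - 1) := by
        intro n
        rcases Nat.eq_zero_or_pos n with h | h
        · simp [h]
        · have : (1 : ℝ) ≤ n := by exact_mod_cast h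
          nlinarith
      rcases Nat.eq_zero_or_pos x with hx | hx
      · rw [hx]
        have := mul_nonneg hγ0 (hq y)
        simp
        linarith
      rcases Nat.eq_zero_or_pos y with hy | hy
      · rw [hy]
        have := mul_nonneg hβ0 (hq x)
        simp
        linarith
      have h1 := hII (x - 1, y - 1)
      rw [Fin.sum_univ_four] at h1
      simp only [col] at h1
      have hx' : (((x - 1 : ℕ) : ℝ)) = x - 1 := by rw [Nat.cast_sub hx, Nat.cast_one]
      have hy' : (((y - 1 : ℕ) : ℝ)) = y - 1 := by rw [Nat.cast_sub hy, Nat.cast_one]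
      simp [hx', hy'] at h1
      rw [e1, e2, e3] at h1
      have h2 : 0 ≤ (1 + β * (x * (x - 1)) + γ * (y * (y - 1)) - α * (x * y)) * cf 0 := by
        nlinarith
      have h3 := nonneg_of_mul_nonneg_left h2 hc0
      linarith
    have := hv α β γ hD
    linarith

end Pool.Agent.R88.PI
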