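import Pool.Agent.R88.PI.Basic
import Pool.Agent.TH437.SP.Nib

/-!
# Packing complete bipartite patterns with bounded multiplicities, by the nibble
-/

set_option autoImplicit false

namespace Pool.Agent.R88.PI

open Finset
open scoped Classical

/-! ## Counting functions with prescribed values -/

section count

variable {Ω : Type} [Fintype Ω] [DecidableEq Ω] (sz : Ω → ℕ)

theorem cnt (T : Finset Ω) (n : Ω → ℕ) :
    (univ.filter (fun e : (ω : Ω) → Fin (sz ω) => ∀ ω ∈ T, (e ω : ℕ) = n ω)).card *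
      ∏ ω ∈ T, sz ω ≤ ∏ ω, sz ω := by
  have h1 : univ.filter (fun e : (ω : Ω) → Fin (sz ω) => ∀ ω ∈ T, (e ω : ℕ) = n ω) =
      Fintype.piFinset (fun ω => if ω ∈ T then univ.filter (fun v : Fin (sz ω) => (v : ℕ) = n ω)
        else univ) := by
    ext e
    simp only [Finset.mem_filter, Finset.mem_univ, true_and, Fintype.mem_piFinset]
    refine forall_congr' (fun ω => ?_)
    by_cases h : ω ∈ T
    · simp [h]
    · simp [h]
  rw [h1, Fintype.card_piFinset]
  have h2 : ∀ ω, (if ω ∈ T then univ.filter (fun v : Fin (sz ω) => (v : ℕ) = n ω)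
        else univ).card ≤ if ω ∈ T then 1 else sz ω := by
    intro ω
    by_cases h : ω ∈ T
    · simp only [h, if_true]
      rw [Finset.card_le_one]
      intro v hv v' hv'
      simp only [Finset.mem_filter, Finset.mem_univ, true_and] at hv hv'
      exact Fin.ext (hv.trans hv'.symm)
    · simp [h]
  have h3 : ∏ ω ∈ T, sz ω = ∏ ω, if ω ∈ T then sz ω else 1 := by
    rw [Finset.prod_ite_mem, Finset.univ_inter]
  calc (∏ ω, (if ω ∈ T then univ.filter (fun v : Fin (sz ω) => (v : ℕ) = n ω)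
        else univ).card) * ∏ ω ∈ T, sz ω
      ≤ (∏ ω, if ω ∈ T then 1 else sz ω) * ∏ ω, (if ω ∈ T then sz ω else 1) := by
        rw [h3]
        exact Nat.mul_le_mul_right _ (Finset.prod_le_prod' (fun ω _ => h2 ω))
    _ = ∏ ω, sz ω := by
        rw [← Finset.prod_mul_distrib]
        apply Finset.prod_congr rfl
        intro ω _
        by_cases h : ω ∈ T <;> simp [h]

theorem cnt3 {ω₁ ω₂ ω₃ : Ω} (h12 : ω₁ ≠ ω₂) (h13 : ω₁ ≠ ω₃) (h23 : ω₂ ≠ ω₃) (n₁ n₂ n₃ : ℕ) :
    (univ.filter (fun e : (ω : Ω) → Fin (sz ω) => (e ω₁ : ℕ) = n₁ ∧ (e ω₂ : ℕ) = n₂ ∧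
      (e ω₃ : ℕ) = n₃)).card * (sz ω₁ * sz ω₂ * sz ω₃) ≤ ∏ ω, sz ω := by
  have h := cnt sz {ω₁, ω₂, ω₃} (fun ω => if ω = ω₁ then n₁ else if ω = ω₂ then n₂ else n₃)
  have h1 : ∏ ω ∈ ({ω₁, ω₂, ω₃} : Finset Ω), sz ω = sz ω₁ * sz ω₂ * sz ω₃ := by
    rw [Finset.prod_insert (by simp [h12, h13]), Finset.prod_pair h23, mul_assoc]
  rw [h1] at h
  refine le_trans (le_of_eq ?_) h
  congr 2
  ext e
  simp only [Finset.mem_filter, Finset.mem_univ, true_and, Finset.mem_insert,
    Finset.mem_singleton, forall_eq_or_imp, forall_eq, if_true, if_neg h12.symm,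
    if_neg h13.symm, if_neg h23.symm]

theorem cnt2 {ω₁ ω₂ : Ω} (h12 : ω₁ ≠ ω₂) (n₁ n₂ : ℕ) :
    (univ.filter (fun e : (ω : Ω) → Fin (sz ω) => (e ω₁ : ℕ) = n₁ ∧ (e ω₂ : ℕ) = n₂)).card *
      (sz ω₁ * sz ω₂) ≤ ∏ ω, sz ω := by
  have h := cnt sz {ω₁, ω₂} (fun ω => if ω = ω₁ then n₁ else n₂)
  rw [Finset.prod_pair h12] at h
  refine le_trans (le_of_eq ?_) h
  congr 2
  ext e
  simp only [Finset.mem_filter, Finset.mem_univ, true_and, Finset.mem_insert,
    Finset.mem_singleton, forall_eq_or_imp, forall_eq, if_true, if_neg h12.symm]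

theorem cnt_eq {ω₁ ω₂ : Ω} (h12 : ω₁ ≠ ω₂) (hs : 0 < sz ω₁) :
    (univ.filter (fun e : (ω : Ω) → Fin (sz ω) => (e ω₁ : ℕ) = (e ω₂ : ℕ))).card *
      sz ω₂ ≤ ∏ ω, sz ω := by
  have h1 : (univ.filter (fun e : (ω : Ω) → Fin (sz ω) => (e ω₁ : ℕ) = (e ω₂ : ℕ))) ⊆
      (range (sz ω₁)).biUnion (fun n => univ.filter (fun e : (ω : Ω) → Fin (sz ω) =>
        (e ω₁ : ℕ) = n ∧ (e ω₂ : ℕ) = n)) := by
    intro e he
    simp only [Finset.mem_filter, Finset.mem_univ, true_and] at he
    simp only [Finset.mem_biUnion, Finset.mem_range, Finset.mem_filter, Finset.mem_univ, true_and]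
    exact ⟨(e ω₁ : ℕ), (e ω₁).2, rfl, he.symm⟩
  have h2 := (Finset.card_le_card h1).trans Finset.card_biUnion_le
  have h3 : (univ.filter (fun e : (ω : Ω) → Fin (sz ω) => (e ω₁ : ℕ) = (e ω₂ : ℕ))).card *
      (sz ω₁ * sz ω₂) ≤ sz ω₁ * ∏ ω, sz ω := by
    calc _ ≤ (∑ n ∈ range (sz ω₁), (univ.filter (fun e : (ω : Ω) → Fin (sz ω) =>
        (e ω₁ : ℕ) = n ∧ (e ω₂ : ℕ) = n)).card) * (sz ω₁ * sz ω₂) := Nat.mul_le_mul_right _ h2
      _ = ∑ n ∈ range (sz ω₁), (univ.filter (fun e : (ω : Ω) → Fin (sz ω) =>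
        (e ω₁ : ℕ) = n ∧ (e ω₂ : ℕ) = n)).card * (sz ω₁ * sz ω₂) := by rw [Finset.sum_mul]
      _ ≤ ∑ _n ∈ range (sz ω₁), ∏ ω, sz ω := Finset.sum_le_sum (fun n _ => cnt2 sz h12 n n)
      _ = _ := by rw [Finset.sum_const, Finset.card_range, smul_eq_mul]
  have h4 : sz ω₁ * ((univ.filter (fun e : (ω : Ω) → Fin (sz ω) => (e ω₁ : ℕ) =
      (e ω₂ : ℕ))).card * sz ω₂) ≤ sz ω₁ * ∏ ω, sz ω := by
    calc _ = (univ.filter (fun e : (ω : Ω) → Fin (sz ω) => (e ω₁ : ℕ) = (e ω₂ : ℕ))).card *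
      (sz ω₁ * sz ω₂) := by ring
      _ ≤ _ := h3
  exact Nat.le_of_mul_le_mul_left h4 hs

end count

/-! ## The pattern -/

section pattern

variable {K : Type} [Fintype K] (x y : K → ℕ)

/-- positions of the pattern: the blocks `k : K` have `x k` positions on the first side and `y k`
positions on the second side -/
abbrev Pos : Type := (Σ k : K, Fin (x k)) ⊕ (Σ k : K, Fin (y k))

variable {x y}

/-- the block of a position -/
def bl : Pos x y → K := Sum.elim Sigma.fst Sigma.fst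

variable (x y)

/-- pairs of positions in a common block -/
noncomputable def Zs : Finset (Sym2 (Pos x y)) :=
  univ.filter (fun z => ¬ z.IsDiag ∧ ∀ q ∈ z, ∀ q' ∈ z, bl q = bl q')

variable {x y}

theorem mem_Zs {q q' : Pos x y} : s(q, q') ∈ Zs x y ↔ q ≠ q' ∧ bl q = bl q' := by
  unfold Zs
  simp only [Finset.mem_filter, Finset.mem_univ, true_and, Sym2.mk_isDiag_iff]
  constructor
  · rintro ⟨h1, h2⟩
    exact ⟨h1, h2 q (Sym2.mem_mk_left _ _) q' (Sym2.mem_mk_right _ _)⟩
  · rintro ⟨h1, h2⟩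
    refine ⟨h1, ?_⟩
    intro r hr r' hr'
    rw [Sym2.mem_iff] at hr hr'
    rcases hr with rfl | rfl <;> rcases hr' with rfl | rfl
    · rfl
    · exact h2
    · exact h2.symm
    · rfl

/-- the side type of an unordered pair -/
def sd {A B : Type} (z : Sym2 (A ⊕ B)) : Sym2 Bool := z.map Sum.isLeft

variable (x y) (a b p : ℕ)

/-- number of possible vertices at a position -/
def nv : Pos x y → ℕ := Sum.elim (fun _ => a) (fun _ => b)

/-- number of colours of a pair of positions -/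
noncomputable def cap (z : Sym2 (Pos x y)) : ℕ := if sd z = s(true, false) then p else p - 1

/-- sizes -/
noncomputable def sz : Pos x y ⊕ Sym2 (Pos x y) → ℕ := Sum.elim (nv x y a b) (cap x y p)

/-- placements of the pattern with colours -/
abbrev Pl : Type := (ω : Pos x y ⊕ Sym2 (Pos x y)) → Fin (sz x y a b p ω)

variable {x y a b p}

/-- the placement of the positions -/
def Fm (e : Pl x y a b p) : Pos x y → Fin a ⊕ Fin b
  | Sum.inl i => Sum.inl (e (Sum.inl (Sum.inl i)))
  | Sum.inr j => Sum.inr (e (Sum.inl (Sum.inr j)))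

theorem isLeft_Fm (e : Pl x y a b p) (q : Pos x y) : (Fm e q).isLeft = q.isLeft := by
  rcases q with q | q <;> rfl

/-- numerical label of a vertex -/
def cd : Fin a ⊕ Fin b → ℕ := Sum.elim (fun u => (u : ℕ)) (fun v => (v : ℕ))

theorem cd_Fm (e : Pl x y a b p) (q : Pos x y) : cd (Fm e q) = (e (Sum.inl q) : ℕ) := by
  rcases q with q | q <;> rfl

/-- the coloured pair used by `e` at `z` -/
def slot (e : Pl x y a b p) (z : Sym2 (Pos x y)) : Sym2 (Fin a ⊕ Fin b) × ℕ :=
  (z.map (Fm e), (e (Sum.inr z) : ℕ))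

/-- the set of coloured pairs used by `e` -/
noncomputable def Ae (e : Pl x y a b p) : Finset (Sym2 (Fin a ⊕ Fin b) × ℕ) :=
  (Zs x y).image (slot e)

theorem sd_slot (e : Pl x y a b p) (z : Sym2 (Pos x y)) : sd (slot e z).1 = sd z := by
  unfold sd slot
  simp only [Sym2.map_map]
  congr 1
  funext q
  exact isLeft_Fm e q

theorem card_Pl : Fintype.card (Pl x y a b p) = ∏ ω, sz x y a b p ω := by
  rw [Fintype.card_pi]
  simp

/-- the number of pairs of the type `(first side, second side)` -/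
theorem card_Zs_mixed :
    ((Zs x y).filter (fun z => sd z = s(true, false))).card ≤ ∑ k, x k * y k := by
  have h1 : ((Zs x y).filter (fun z => sd z = s(true, false))) ⊆
      (univ : Finset (Σ k : K, Fin (x k) × Fin (y k))).image
        (fun w => s(Sum.inl ⟨w.1, w.2.1⟩, Sum.inr ⟨w.1, w.2.2⟩)) := by
    intro z hz
    rw [Finset.mem_filter] at hz
    obtain ⟨hz1, hz2⟩ := hz
    induction z with
    | _ q q' =>
      rw [mem_Zs] at hz1
      rw [Finset.mem_image]
      rcases q with ⟨k, i⟩ | ⟨k, i⟩ <;> rcases q' with ⟨k', i'⟩ | ⟨k', i'⟩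
      · simp [sd] at hz2
      · have h : k = k' := hz1.2
        subst h
        exact ⟨⟨k, i, i'⟩, mem_univ _, rfl⟩
      · have h : k = k' := hz1.2
        subst h
        exact ⟨⟨k, i', i⟩, mem_univ _, Sym2.eq_swap⟩
      · simp [sd] at hz2
  refine (Finset.card_le_card h1).trans (Finset.card_image_le.trans ?_)
  simp [Finset.card_univ, Fintype.card_sigma]

theorem card_nd (n : ℕ) :
    2 * (univ.filter (fun z : Sym2 (Fin n) => ¬ z.IsDiag)).card = n * (n - 1) := by
  have h := Sym2.card_subtype_not_diag (α := Fin n)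
  rw [Fintype.card_subtype, Fintype.card_fin, Nat.choose_two_right] at h
  have h2 : (univ.filter (fun z : Sym2 (Fin n) => ¬ z.IsDiag)).card = n * (n - 1) / 2 := by
    rw [← h]
  rw [h2]
  exact Nat.mul_div_cancel' (Nat.even_mul_pred_self n).two_dvd

theorem card_Zs_left :
    2 * ((Zs x y).filter (fun z => sd z = s(true, true))).card ≤ ∑ k, x k * (x k - 1) := by
  have h1 : ((Zs x y).filter (fun z => sd z = s(true, true))) ⊆
      (univ : Finset K).biUnion (fun k => (univ.filter (fun z : Sym2 (Fin (x k)) =>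
        ¬ z.IsDiag)).image (fun z => z.map (fun i => (Sum.inl ⟨k, i⟩ : Pos x y)))) := by
    intro z hz
    rw [Finset.mem_filter] at hz
    obtain ⟨hz1, hz2⟩ := hz
    induction z with
    | _ q q' =>
      rw [mem_Zs] at hz1
      rw [Finset.mem_biUnion]
      rcases q with ⟨k, i⟩ | ⟨k, i⟩ <;> rcases q' with ⟨k', i'⟩ | ⟨k', i'⟩
      · have h : k = k' := hz1.2
        subst h
        refine ⟨k, mem_univ _, ?_⟩
        rw [Finset.mem_image]
        refine ⟨s(i, i'), ?_, rfl⟩
        rw [Finset.mem_filter]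
        refine ⟨mem_univ _, ?_⟩
        rw [Sym2.mk_isDiag_iff]
        rintro rfl
        exact hz1.1 rfl
      · simp [sd] at hz2
      · simp [sd] at hz2
      · simp [sd] at hz2
  have h2 := (Finset.card_le_card h1).trans Finset.card_biUnion_le
  calc 2 * ((Zs x y).filter (fun z => sd z = s(true, true))).card
      ≤ 2 * ∑ k, (univ.filter (fun z : Sym2 (Fin (x k)) => ¬ z.IsDiag)).card := by
        refine Nat.mul_le_mul_left _ (h2.trans ?_)
        exact Finset.sum_le_sum (fun k _ => Finset.card_image_le)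
    _ = ∑ k, x k * (x k - 1) := by
        rw [Finset.mul_sum]
        exact Finset.sum_congr rfl (fun k _ => card_nd (x k))

theorem card_Zs_right :
    2 * ((Zs x y).filter (fun z => sd z = s(false, false))).card ≤ ∑ k, y k * (y k - 1) := by
  have h1 : ((Zs x y).filter (fun z => sd z = s(false, false))) ⊆
      (univ : Finset K).biUnion (fun k => (univ.filter (fun z : Sym2 (Fin (y k)) =>
        ¬ z.IsDiag)).image (fun z => z.map (fun i => (Sum.inr ⟨k, i⟩ : Pos x y)))) := by
    intro z hz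
    rw [Finset.mem_filter] at hz
    obtain ⟨hz1, hz2⟩ := hz
    induction z with
    | _ q q' =>
      rw [mem_Zs] at hz1
      rw [Finset.mem_biUnion]
      rcases q with ⟨k, i⟩ | ⟨k, i⟩ <;> rcases q' with ⟨k', i'⟩ | ⟨k', i'⟩
      · simp [sd] at hz2
      · simp [sd] at hz2
      · simp [sd] at hz2
      · have h : k = k' := hz1.2
        subst h
        refine ⟨k, mem_univ _, ?_⟩
        rw [Finset.mem_image]
        refine ⟨s(i, i'), ?_, rfl⟩
        rw [Finset.mem_filter]
        refine ⟨mem_univ _, ?_⟩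
        rw [Sym2.mk_isDiag_iff]
        rintro rfl
        exact hz1.1 rfl
  have h2 := (Finset.card_le_card h1).trans Finset.card_biUnion_le
  calc 2 * ((Zs x y).filter (fun z => sd z = s(false, false))).card
      ≤ 2 * ∑ k, (univ.filter (fun z : Sym2 (Fin (y k)) => ¬ z.IsDiag)).card := by
        refine Nat.mul_le_mul_left _ (h2.trans ?_)
        exact Finset.sum_le_sum (fun k _ => Finset.card_image_le)
    _ = ∑ k, y k * (y k - 1) := by
        rw [Finset.mul_sum]
        exact Finset.sum_congr rfl (fun k _ => card_nd (y k))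

end pattern

end Pool.Agent.R88.PI
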