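import Pool.Agent.R88.PI.Deg

/-!
# The nibble applied to coloured placements
-/

set_option autoImplicit false

namespace Pool.Agent.R88.PI

open Finset
open scoped Classical

variable {K : Type} [Fintype K] {x y : K → ℕ} {a b p : ℕ}

theorem card_mem_le (σ : Sym2 (Fin a ⊕ Fin b) × ℕ) :
    (univ.filter (fun e : Pl x y a b p => σ ∈ Ae e)).card ≤
      ∑ z ∈ (Zs x y).filter (fun z => sd z = sd σ.1),
        (univ.filter (fun e : Pl x y a b p => slot e z = σ)).card := by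
  refine (Finset.card_le_card ?_).trans Finset.card_biUnion_le
  intro e he
  rw [Finset.mem_filter] at he
  have h1 := he.2
  unfold Ae at h1
  rw [Finset.mem_image] at h1
  obtain ⟨z, hz, h2⟩ := h1
  rw [Finset.mem_biUnion]
  refine ⟨z, ?_, ?_⟩
  · rw [Finset.mem_filter]
    refine ⟨hz, ?_⟩
    rw [← h2, sd_slot]
  · rw [Finset.mem_filter]
    exact ⟨mem_univ _, h2⟩

theorem card_mem_two_le {σ τ : Sym2 (Fin a ⊕ Fin b) × ℕ} (hστ : σ ≠ τ) :
    (univ.filter (fun e : Pl x y a b p => σ ∈ Ae e ∧ τ ∈ Ae e)).card ≤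
      ∑ w ∈ ((Zs x y) ×ˢ (Zs x y)).filter (fun w => w.1 ≠ w.2),
        (univ.filter (fun e : Pl x y a b p => slot e w.1 = σ ∧ slot e w.2 = τ)).card := by
  refine (Finset.card_le_card ?_).trans Finset.card_biUnion_le
  intro e he
  rw [Finset.mem_filter] at he
  obtain ⟨-, h1, h2⟩ := he
  unfold Ae at h1 h2
  rw [Finset.mem_image] at h1 h2
  obtain ⟨z, hz, h1⟩ := h1
  obtain ⟨z', hz', h2⟩ := h2
  rw [Finset.mem_biUnion]
  refine ⟨(z, z'), ?_, ?_⟩
  · rw [Finset.mem_filter, Finset.mem_product]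
    refine ⟨⟨hz, hz'⟩, ?_⟩
    intro h
    have h : z = z' := h
    subst h
    exact hστ (h1.symm.trans h2)
  · rw [Finset.mem_filter]
    exact ⟨mem_univ _, h1, h2⟩

theorem deg_bound (hp : 2 ≤ p) {s w0 : ℝ} (hs : 0 < s) (hw0 : 0 < w0) (ha : (0 : ℝ) < a)
    (hb : (0 : ℝ) < b) {D : ℝ} (hD0 : 0 < D) (hD : ((∏ ω, sz x y a b p ω : ℕ) : ℝ) = D)
    (hw0D : w0 * D = s * a * b) (hxy : s * ∑ k, ((x k : ℝ) * y k) ≤ p)
    (hA : s * (∑ k, ((x k : ℝ) * (x k - 1))) * b ≤ (p - 1) * a)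
    (hB : s * (∑ k, ((y k : ℝ) * (y k - 1))) * a ≤ (p - 1) * b)
    (σ : Sym2 (Fin a ⊕ Fin b) × ℕ) :
    w0 * ((univ.filter (fun e : Pl x y a b p => σ ∈ Ae e)).card : ℝ) ≤ 1 := by
  have hp1 : (1 : ℝ) ≤ (p : ℝ) - 1 := by
    have : (2 : ℝ) ≤ p := by exact_mod_cast hp
    linarith
  have hc := card_mem_le (x := x) (y := y) (p := p) σ
  have hcR : ((univ.filter (fun e : Pl x y a b p => σ ∈ Ae e)).card : ℝ) ≤
      ∑ z ∈ (Zs x y).filter (fun z => sd z = sd σ.1),
      ((univ.filter (fun e : Pl x y a b p => slot e z = σ)).card : ℝ) := by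
    have h := (Nat.cast_le (α := ℝ)).2 hc
    rwa [Nat.cast_sum] at h
  generalize hX : ((univ.filter (fun e : Pl x y a b p => σ ∈ Ae e)).card : ℝ) = X at hcR ⊢
  clear hX hc
  -- a general estimate
  have gen : ∀ (R N : ℝ), 0 < R →
      (∀ z ∈ (Zs x y).filter (fun z => sd z = sd σ.1),
        ((univ.filter (fun e : Pl x y a b p => slot e z = σ)).card : ℝ) * R ≤ D) →
      (((Zs x y).filter (fun z => sd z = sd σ.1)).card : ℝ) ≤ N → N * (s * a * b) ≤ R →
      w0 * X ≤ 1 := by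
    intro R N hR h1 h2 h4
    have h5 : ∑ z ∈ (Zs x y).filter (fun z => sd z = sd σ.1),
        ((univ.filter (fun e : Pl x y a b p => slot e z = σ)).card : ℝ) ≤
        (((Zs x y).filter (fun z => sd z = sd σ.1)).card : ℝ) * (D / R) := by
      rw [← nsmul_eq_mul]
      apply Finset.sum_le_card_nsmul
      intro z hz
      rw [le_div_iff₀ hR]
      exact h1 z hz
    have h6 : (((Zs x y).filter (fun z => sd z = sd σ.1)).card : ℝ) * (D / R) ≤ N * (D / R) :=
      mul_le_mul_of_nonneg_right h2 (div_nonneg hD0.le hR.le)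
    calc w0 * X
        ≤ w0 * (N * (D / R)) :=
          mul_le_mul_of_nonneg_left (hcR.trans (h5.trans h6)) hw0.le
      _ = N * (w0 * D) / R := by ring
      _ = N * (s * a * b) / R := by rw [hw0D]
      _ ≤ 1 := by rw [div_le_one hR]; exact h4
  have cases_sd : sd σ.1 = s(true, false) ∨ sd σ.1 = s(true, true) ∨
      sd σ.1 = s(false, false) := by
    generalize sd σ.1 = t
    induction t with
    | _ u v =>
      cases u <;> cases v
      · exact Or.inr (Or.inr rfl)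
      · exact Or.inl Sym2.eq_swap
      · exact Or.inl rfl
      · exact Or.inr (Or.inl rfl)
  rcases cases_sd with hsd | hsd | hsd
  · refine gen ((a : ℝ) * b * p) (∑ k, ((x k : ℝ) * y k)) (by positivity) ?_ ?_ ?_
    · intro z hz
      rw [Finset.mem_filter, hsd] at hz
      have := (Nat.cast_le (α := ℝ)).2 (slot_mixed (a := a) (b := b) (p := p) hz.1 hz.2 σ)
      rw [hD, Nat.cast_mul, Nat.cast_mul, Nat.cast_mul] at this
      exact this
    · rw [hsd]
      have := card_Zs_mixed (x := x) (y := y)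
      exact_mod_cast this
    · have : (∑ k, ((x k : ℝ) * y k)) * (s * a * b) = (s * ∑ k, ((x k : ℝ) * y k)) * (a * b) := by
        ring
      rw [this]
      calc (s * ∑ k, ((x k : ℝ) * y k)) * (a * b) ≤ p * (a * b) :=
            mul_le_mul_of_nonneg_right hxy (by positivity)
        _ = _ := by ring
  · refine gen ((a : ℝ) * a * (p - 1) / 2) ((∑ k, ((x k : ℝ) * (x k - 1))) / 2)
      (by positivity) ?_ ?_ ?_
    · intro z hz
      rw [Finset.mem_filter, hsd] at hz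
      have := (Nat.cast_le (α := ℝ)).2 (slot_pair (a := a) (b := b) (p := p) hz.1 (c := a * a) (by
        intro q q' hqq
        have h5 := hz.2
        rw [hqq] at h5
        rcases q with q | q <;> rcases q' with q' | q'
        · rfl
        · simp [sd] at h5
        · simp [sd] at h5
        · simp [sd] at h5) (by rw [hz.2]; simp) σ)
      rw [Nat.cast_mul, Nat.cast_mul, Nat.cast_mul, Nat.cast_mul, hD,
        Nat.cast_sub (by omega), Nat.cast_one] at this
      push_cast at this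
      linarith
    · rw [hsd]
      have := card_Zs_left (x := x) (y := y)
      have h6 : 2 * (((Zs x y).filter (fun z => sd z = s(true, true))).card : ℝ) ≤
          ∑ k, ((x k : ℝ) * ((x k - 1 : ℕ) : ℝ)) := by exact_mod_cast this
      have h7 : ∑ k, ((x k : ℝ) * ((x k - 1 : ℕ) : ℝ)) = ∑ k, ((x k : ℝ) * (x k - 1)) := by
        apply Finset.sum_congr rfl
        intro k _
        rcases Nat.eq_zero_or_pos (x k) with h | h
        · simp [h]
        · rw [Nat.cast_sub h, Nat.cast_one]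
      rw [h7] at h6
      linarith
    · have h8 : (∑ k, ((x k : ℝ) * (x k - 1))) / 2 * (s * a * b) =
          (s * (∑ k, ((x k : ℝ) * (x k - 1))) * b) * (a / 2) := by ring
      rw [h8]
      calc _ ≤ ((p - 1) * (a : ℝ)) * (a / 2) := mul_le_mul_of_nonneg_right hA (by positivity)
        _ = _ := by ring
  · refine gen ((b : ℝ) * b * (p - 1) / 2) ((∑ k, ((y k : ℝ) * (y k - 1))) / 2)
      (by positivity) ?_ ?_ ?_
    · intro z hz
      rw [Finset.mem_filter, hsd] at hz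
      have := (Nat.cast_le (α := ℝ)).2 (slot_pair (a := a) (b := b) (p := p) hz.1 (c := b * b) (by
        intro q q' hqq
        have h5 := hz.2
        rw [hqq] at h5
        rcases q with q | q <;> rcases q' with q' | q'
        · simp [sd] at h5
        · simp [sd] at h5
        · simp [sd] at h5
        · rfl) (by rw [hz.2]; simp) σ)
      rw [Nat.cast_mul, Nat.cast_mul, Nat.cast_mul, Nat.cast_mul, hD,
        Nat.cast_sub (by omega), Nat.cast_one] at this
      push_cast at this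
      linarith
    · rw [hsd]
      have := card_Zs_right (x := x) (y := y)
      have h6 : 2 * (((Zs x y).filter (fun z => sd z = s(false, false))).card : ℝ) ≤
          ∑ k, ((y k : ℝ) * ((y k - 1 : ℕ) : ℝ)) := by exact_mod_cast this
      have h7 : ∑ k, ((y k : ℝ) * ((y k - 1 : ℕ) : ℝ)) = ∑ k, ((y k : ℝ) * (y k - 1)) := by
        apply Finset.sum_congr rfl
        intro k _
        rcases Nat.eq_zero_or_pos (y k) with h | h
        · simp [h]
        · rw [Nat.cast_sub h, Nat.cast_one]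
      rw [h7] at h6
      linarith
    · have h8 : (∑ k, ((y k : ℝ) * (y k - 1))) / 2 * (s * a * b) =
          (s * (∑ k, ((y k : ℝ) * (y k - 1))) * a) * (b / 2) := by ring
      rw [h8]
      calc _ ≤ ((p - 1) * (b : ℝ)) * (b / 2) := mul_le_mul_of_nonneg_right hB (by positivity)
        _ = _ := by ring

theorem codeg_bound {μ : ℕ} (hμ0 : 0 < μ) (hμa : μ ≤ a) (hμb : μ ≤ b) {w0 κ Z : ℝ}
    (hw0 : 0 < w0) {D : ℝ} (hD0 : 0 < D) (hD : ((∏ ω, sz x y a b p ω : ℕ) : ℝ) = D)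
    (hZ : ((Zs x y).card : ℝ) = Z) (hsmall : 4 * Z ^ 2 * (w0 * D) / (μ : ℝ) ^ 3 ≤ κ)
    {σ τ : Sym2 (Fin a ⊕ Fin b) × ℕ} (hστ : σ ≠ τ) :
    w0 * ((univ.filter (fun e : Pl x y a b p => σ ∈ Ae e ∧ τ ∈ Ae e)).card : ℝ) ≤ κ := by
  have hμR : (0 : ℝ) < μ := by exact_mod_cast hμ0
  have hc := card_mem_two_le (x := x) (y := y) (p := p) hστ
  have hcR : ((univ.filter (fun e : Pl x y a b p => σ ∈ Ae e ∧ τ ∈ Ae e)).card : ℝ) ≤
      ∑ w ∈ ((Zs x y) ×ˢ (Zs x y)).filter (fun w => w.1 ≠ w.2),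
      ((univ.filter (fun e : Pl x y a b p => slot e w.1 = σ ∧ slot e w.2 = τ)).card : ℝ) := by
    have h := (Nat.cast_le (α := ℝ)).2 hc
    rwa [Nat.cast_sum] at h
  generalize hX : ((univ.filter (fun e : Pl x y a b p => σ ∈ Ae e ∧ τ ∈ Ae e)).card : ℝ) = X
    at hcR ⊢
  clear hX hc
  have h5 : ∑ w ∈ ((Zs x y) ×ˢ (Zs x y)).filter (fun w => w.1 ≠ w.2),
      ((univ.filter (fun e : Pl x y a b p => slot e w.1 = σ ∧ slot e w.2 = τ)).card : ℝ) ≤
      Z ^ 2 * (4 * D / (μ : ℝ) ^ 3) := by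
    have h6 : ∑ w ∈ ((Zs x y) ×ˢ (Zs x y)).filter (fun w => w.1 ≠ w.2),
      ((univ.filter (fun e : Pl x y a b p => slot e w.1 = σ ∧ slot e w.2 = τ)).card : ℝ) ≤
      (((Zs x y) ×ˢ (Zs x y)).filter (fun w => w.1 ≠ w.2)).card • (4 * D / (μ : ℝ) ^ 3) := by
      apply Finset.sum_le_card_nsmul
      intro z hz
      rw [Finset.mem_filter, Finset.mem_product] at hz
      rw [le_div_iff₀ (by positivity)]
      have := (Nat.cast_le (α := ℝ)).2 (slot_two (p := p) hμa hμb hz.1.1 hz.1.2 hz.2 σ τ)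
      rw [Nat.cast_mul, Nat.cast_mul, hD, Nat.cast_pow] at this
      exact this
    refine h6.trans ?_
    rw [nsmul_eq_mul]
    apply mul_le_mul_of_nonneg_right _ (by positivity)
    have h7 : (((Zs x y) ×ˢ (Zs x y)).filter (fun w => w.1 ≠ w.2)).card ≤
        (Zs x y).card * (Zs x y).card := by
      refine (Finset.card_filter_le _ _).trans ?_
      rw [Finset.card_product]
    have h8 : ((((Zs x y) ×ˢ (Zs x y)).filter (fun w => w.1 ≠ w.2)).card : ℝ) ≤ Z * Z := by
      rw [← hZ]; exact_mod_cast h7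
    rw [sq]; exact h8
  calc w0 * X
      ≤ w0 * (Z ^ 2 * (4 * D / (μ : ℝ) ^ 3)) :=
        mul_le_mul_of_nonneg_left (hcR.trans h5) hw0.le
    _ = 4 * Z ^ 2 * (w0 * D) / (μ : ℝ) ^ 3 := by ring
    _ ≤ κ := hsmall

theorem exists_placements (x y : K → ℕ) {p : ℕ} (hp : 2 ≤ p) {s C θ : ℝ} (hs : 0 < s)
    (hC : 0 < C) (hθ : 0 < θ) (hxy : s * ∑ k, ((x k : ℝ) * y k) ≤ p)
    (h3 : 3 ≤ Fintype.card (Pos x y)) (hne : (Zs x y).Nonempty) :
    ∃ n0 : ℕ, ∀ a b : ℕ, n0 ≤ a → n0 ≤ b → (a : ℝ) ≤ C * b → (b : ℝ) ≤ C * a →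
      s * (∑ k, ((x k : ℝ) * (x k - 1))) * b ≤ (p - 1) * a →
      s * (∑ k, ((y k : ℝ) * (y k - 1))) * a ≤ (p - 1) * b →
      ∃ M : Finset (Pl x y a b p),
        (∀ e ∈ M, ∀ f ∈ M, e ≠ f → Disjoint (Ae e) (Ae f)) ∧
        (∀ e ∈ M, Function.Injective (Fm e)) ∧ (1 - θ) * (s * a * b) ≤ (M.card : ℝ) := by
  obtain ⟨κ, hκ, hnib⟩ := Pool.Agent.TH437.SP.nibble_T (Zs x y).card (θ / 2) (by positivity)
  generalize hZ : ((Zs x y).card : ℝ) = Z
  generalize hP : (Fintype.card (Pos x y) : ℝ) = P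
  have hZ1 : 1 ≤ Z := by
    rw [← hZ]; exact_mod_cast Finset.card_pos.2 hne
  obtain ⟨n0, hn0⟩ := exists_nat_gt (max 1 (max (4 * Z ^ 2 * s * C / κ) (P ^ 2 * 2 / θ)))
  refine ⟨n0, ?_⟩
  intro a b ha hb hab hba hA hB
  have hp1 : (1 : ℝ) ≤ (p : ℝ) - 1 := by
    have : (2 : ℝ) ≤ p := by exact_mod_cast hp
    linarith
  -- the minimum of `a` and `b`
  obtain ⟨μ, hμ⟩ : ∃ μ : ℕ, μ = min a b := ⟨_, rfl⟩
  have hμa : μ ≤ a := by rw [hμ]; exact min_le_left _ _
  have hμb : μ ≤ b := by rw [hμ]; exact min_le_right _ _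
  have hμn : n0 ≤ μ := by rw [hμ]; exact le_min ha hb
  have hμR : (n0 : ℝ) ≤ μ := by exact_mod_cast hμn
  have hμ1 : (1 : ℝ) < μ := lt_of_lt_of_le (lt_of_le_of_lt (le_max_left _ _) hn0) hμR
  have hμ0 : (0 : ℝ) < μ := by linarith
  have hμ2 : 4 * Z ^ 2 * s * C / κ ≤ μ :=
    ((le_max_left _ _).trans (le_max_right _ _)).trans (hn0.le.trans hμR)
  have hμ3 : P ^ 2 * 2 / θ ≤ μ :=
    ((le_max_right _ _).trans (le_max_right _ _)).trans (hn0.le.trans hμR)
  have haR : (0 : ℝ) < a := lt_of_lt_of_le hμ0 (by exact_mod_cast hμa)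
  have hbR : (0 : ℝ) < b := lt_of_lt_of_le hμ0 (by exact_mod_cast hμb)
  have hμnat : 0 < μ := by exact_mod_cast hμ0
  -- `a b ≤ C μ²`
  have habμ : (a : ℝ) * b ≤ C * (μ : ℝ) ^ 2 := by
    rcases le_total a b with h | h
    · have : μ = a := by rw [hμ]; exact min_eq_left h
      rw [this]
      nlinarith
    · have : μ = b := by rw [hμ]; exact min_eq_right h
      rw [this]
      nlinarith
  obtain ⟨D, hD⟩ : ∃ D : ℝ, ((∏ ω, sz x y a b p ω : ℕ) : ℝ) = D := ⟨_, rfl⟩
  have hDμ : (μ : ℝ) ^ 3 ≤ D := by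
    have h1 := prod_sz_ge (x := x) (y := y) (p := p) hμa hμb hp
    have h2 : μ ^ 3 ≤ μ ^ Fintype.card (Pos x y) := Nat.pow_le_pow_right hμnat h3
    have h4 := (Nat.cast_le (α := ℝ)).2 (h2.trans h1)
    rw [hD, Nat.cast_pow] at h4
    exact h4
  have hD0 : 0 < D := lt_of_lt_of_le (by positivity) hDμ
  obtain ⟨w0, hw0⟩ : ∃ w0 : ℝ, w0 = s * a * b / D := ⟨_, rfl⟩
  have hw0pos : 0 < w0 := by rw [hw0]; positivity
  have hw0D : w0 * D = s * a * b := by rw [hw0]; field_simp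
  obtain ⟨w, hwdef⟩ : ∃ w : Pl x y a b p → ℝ,
      w = fun e => if Function.Injective (Fm e) then w0 else 0 := ⟨_, rfl⟩
  have hwle : ∀ e, w e ≤ w0 := by
    intro e
    rw [hwdef]
    dsimp only
    split_ifs
    · exact le_rfl
    · exact hw0pos.le
  have hw_nonneg : ∀ e, 0 ≤ w e := by
    intro e
    rw [hwdef]
    dsimp only
    split_ifs
    · exact hw0pos.le
    · exact le_rfl
  have hsum_le : ∀ T : Finset (Pl x y a b p), ∑ e ∈ T, w e ≤ w0 * (T.card : ℝ) := by
    intro T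
    calc ∑ e ∈ T, w e ≤ ∑ _e ∈ T, w0 :=
          Finset.sum_le_sum (fun e _ => hwle e)
      _ = _ := by rw [Finset.sum_const, nsmul_eq_mul, mul_comm]
  -- the small quantity
  have hsmall : 4 * Z ^ 2 * (s * a * b) / (μ : ℝ) ^ 3 ≤ κ := by
    rw [div_le_iff₀ (by positivity)]
    rw [div_le_iff₀ hκ] at hμ2
    have h1 : 4 * Z ^ 2 * (s * a * b) ≤ 4 * Z ^ 2 * s * (C * (μ : ℝ) ^ 2) := by
      have : 4 * Z ^ 2 * (s * a * b) = 4 * Z ^ 2 * s * (a * b) := by ring
      rw [this]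
      exact mul_le_mul_of_nonneg_left habμ (by positivity)
    have h2 : 4 * Z ^ 2 * s * (C * (μ : ℝ) ^ 2) = (4 * Z ^ 2 * s * C) * (μ : ℝ) ^ 2 := by ring
    have h4 : (4 * Z ^ 2 * s * C) * (μ : ℝ) ^ 2 ≤ (μ * κ) * (μ : ℝ) ^ 2 :=
      mul_le_mul_of_nonneg_right hμ2 (by positivity)
    calc 4 * Z ^ 2 * (s * a * b) ≤ _ := h1
      _ = _ := h2
      _ ≤ _ := h4
      _ = κ * (μ : ℝ) ^ 3 := by ring
  have hw0κ : w0 ≤ κ := by
    refine le_trans ?_ hsmall
    rw [hw0]
    have h1 : s * a * b / D ≤ s * a * b / (μ : ℝ) ^ 3 :=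
      div_le_div_of_nonneg_left (by positivity) (by positivity) hDμ
    refine h1.trans ?_
    apply div_le_div_of_nonneg_right _ (by positivity)
    have h2 : (1 : ℝ) ≤ 4 * Z ^ 2 := by nlinarith
    have h4 : 0 ≤ s * a * b := by positivity
    nlinarith
  -- degrees
  have hdeg : ∀ σ, ∑ e ∈ univ.filter (fun e => σ ∈ Ae e), w e ≤ 1 := by
    intro σ
    refine (hsum_le _).trans ?_
    convert deg_bound hp hs hw0pos haR hbR hD0 hD hw0D hxy hA hB σ
  -- codegrees
  have hcodeg : ∀ σ τ, σ ≠ τ → ∑ e ∈ univ.filter (fun e => σ ∈ Ae e ∧ τ ∈ Ae e), w e ≤ κ := by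
    intro σ τ hστ
    refine (hsum_le _).trans ?_
    have h := codeg_bound (κ := κ) hμnat hμa hμb hw0pos hD0 hD hZ
      (by rw [hw0D]; exact hsmall) hστ
    convert h
  obtain ⟨M, hM1, hM2, hM3⟩ := hnib (Pl x y a b p) (Sym2 (Fin a ⊕ Fin b) × ℕ) Ae w hw_nonneg
    (fun e => by unfold Ae; exact hne.image _)
    (fun e => by unfold Ae; exact Finset.card_image_le) hdeg hcodeg
    (fun e => (hwle e).trans hw0κ)
  refine ⟨M, hM1, ?_, ?_⟩
  · intro e he
    by_contra hcon
    have := hM2 e he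
    rw [hwdef] at this
    dsimp only at this
    rw [if_neg hcon] at this
    exact lt_irrefl _ this
  · -- total weight
    have hn := noninj (x := x) (y := y) (p := p) hμnat hμa hμb
    have hnR : ((univ.filter (fun e : Pl x y a b p => ¬ Function.Injective (Fm e))).card : ℝ) * μ ≤
        P ^ 2 * D := by
      have h := (Nat.cast_le (α := ℝ)).2 hn
      rw [Nat.cast_mul, Nat.cast_mul, Nat.cast_pow, hD, hP] at h
      exact h
    have htot : ∑ e, w e = w0 * (D -
        ((univ.filter (fun e : Pl x y a b p => ¬ Function.Injective (Fm e))).card : ℝ)) := by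
      have h1 : ∑ e, w e = w0 *
          ((univ.filter (fun e : Pl x y a b p => Function.Injective (Fm e))).card : ℝ) := by
        rw [hwdef]
        rw [← Finset.sum_filter, Finset.sum_const, nsmul_eq_mul, mul_comm]
      have h2 := Finset.card_filter_add_card_filter_not (s := (univ : Finset (Pl x y a b p)))
        (fun e => Function.Injective (Fm e))
      rw [Finset.card_univ, card_Pl] at h2
      have h4 : ((univ.filter (fun e : Pl x y a b p => Function.Injective (Fm e))).card : ℝ) +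
        ((univ.filter (fun e : Pl x y a b p => ¬ Function.Injective (Fm e))).card : ℝ) = D := by
        rw [← hD, ← h2, Nat.cast_add]
      rw [h1]
      congr 1
      linarith
    generalize ((univ.filter (fun e : Pl x y a b p => ¬ Function.Injective (Fm e))).card : ℝ) = N
      at hnR htot
    have h5 : N ≤ θ / 2 * D := by
      have h6 : P ^ 2 ≤ θ / 2 * μ := by
        rw [div_le_iff₀ hθ] at hμ3
        linarith
      have h7 : N * μ ≤ (θ / 2 * D) * μ := by
        refine hnR.trans ?_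
        calc P ^ 2 * D ≤ (θ / 2 * μ) * D := mul_le_mul_of_nonneg_right h6 hD0.le
          _ = _ := by ring
      exact le_of_mul_le_mul_right h7 hμ0
    have h8 : (1 - θ / 2) * (s * a * b) ≤ ∑ e, w e := by
      rw [htot]
      calc (1 - θ / 2) * (s * a * b) = w0 * (D - θ / 2 * D) := by rw [← hw0D]; ring
        _ ≤ _ := mul_le_mul_of_nonneg_left (by linarith) hw0pos.le
    have hsab : 0 ≤ s * a * b := by positivity
    by_cases hθ2 : θ ≤ 2
    · calc (1 - θ) * (s * a * b) ≤ (1 - θ / 2) * ((1 - θ / 2) * (s * a * b)) := by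
            nlinarith [mul_nonneg (sq_nonneg (θ / 2)) hsab]
        _ ≤ (1 - θ / 2) * ∑ e, w e := mul_le_mul_of_nonneg_left h8 (by linarith)
        _ ≤ _ := hM3
    · have : (1 - θ) * (s * a * b) ≤ 0 := mul_nonpos_of_nonpos_of_nonneg (by linarith) hsab
      exact this.trans (Nat.cast_nonneg _)

end Pool.Agent.R88.PI
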